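import Mathlib

set_option autoImplicit false

open MeasureTheory ProbabilityTheory Filter Topology

namespace Pool.Agent.H296Z.ConvPoin

/-- flip one coordinate of a vertex of the discrete cube -/
def flip {n : ℕ} (i : Fin n) (σ : Fin n → Bool) : Fin n → Bool := Function.update σ i (!σ i)

lemma sum_succ {n : ℕ} (F : (Fin (n+1) → Bool) → ℝ) :
    ∑ σ, F σ = ∑ τ : Fin n → Bool, F (Fin.cons true τ) + ∑ τ : Fin n → Bool, F (Fin.cons false τ) := by
  rw [← (Fin.consEquiv (fun _ : Fin (n+1) => Bool)).sum_comp, Fintype.sum_prod_type,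
    Fintype.sum_bool]
  rfl

lemma flip_zero {n : ℕ} (b : Bool) (τ : Fin n → Bool) :
    flip 0 (Fin.cons b τ : Fin (n+1) → Bool) = Fin.cons (!b) τ := by
  unfold flip
  simp [Fin.update_cons_zero]

lemma flip_succ {n : ℕ} (b : Bool) (τ : Fin n → Bool) (i : Fin n) :
    flip i.succ (Fin.cons b τ : Fin (n+1) → Bool) = Fin.cons b (flip i τ) := by
  unfold flip
  simp [Fin.cons_update]

/-- Efron–Stein inequality on the discrete cube. -/
lemma efron_stein (n : ℕ) (F : (Fin n → Bool) → ℝ) :
    ∑ σ, F σ ^ 2 - (∑ σ, F σ) ^ 2 / 2 ^ n ≤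
      ∑ σ, ∑ i, (max (F σ - F (flip i σ)) 0) ^ 2 := by
  induction n with
  | zero => simp
  | succ n ih =>
    rw [sum_succ (fun σ => F σ ^ 2), sum_succ F,
      sum_succ (fun σ => ∑ i, (max (F σ - F (flip i σ)) 0) ^ 2)]
    simp only [Fin.sum_univ_succ, flip_zero, flip_succ, Finset.sum_add_distrib, Bool.not_true,
      Bool.not_false]
    have h1 := ih (fun τ => F (Fin.cons true τ))
    have h0 := ih (fun τ => F (Fin.cons false τ))
    have hcs : (∑ τ : Fin n → Bool, (F (Fin.cons true τ) - F (Fin.cons false τ))) ^ 2 ≤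
        2 ^ n * ∑ τ : Fin n → Bool, (F (Fin.cons true τ) - F (Fin.cons false τ)) ^ 2 := by
      have := sq_sum_le_card_mul_sum_sq (s := (Finset.univ : Finset (Fin n → Bool)))
        (f := fun τ => F (Fin.cons true τ) - F (Fin.cons false τ))
      simpa using this
    have hsplit : ∑ τ : Fin n → Bool, (F (Fin.cons true τ) - F (Fin.cons false τ)) ^ 2 =
        ∑ τ : Fin n → Bool, (max (F (Fin.cons true τ) - F (Fin.cons false τ)) 0) ^ 2 +
        ∑ τ : Fin n → Bool, (max (F (Fin.cons false τ) - F (Fin.cons true τ)) 0) ^ 2 := by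
      rw [← Finset.sum_add_distrib]
      refine Finset.sum_congr rfl fun τ _ => ?_
      rcases le_total (F (Fin.cons true τ)) (F (Fin.cons false τ)) with h | h
      · rw [max_eq_right (by linarith), max_eq_left (by linarith)]; ring
      · rw [max_eq_left (by linarith), max_eq_right (by linarith)]; ring
    rw [Finset.sum_sub_distrib] at hcs
    set a := ∑ τ : Fin n → Bool, F (Fin.cons true τ)
    set b := ∑ τ : Fin n → Bool, F (Fin.cons false τ)
    set D := ∑ τ : Fin n → Bool, (F (Fin.cons true τ) - F (Fin.cons false τ)) ^ 2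
    have hD : 0 ≤ D := Finset.sum_nonneg fun _ _ => sq_nonneg _
    have hp : (0:ℝ) < 2 ^ n := by positivity
    have key : a ^ 2 / 2 ^ n + b ^ 2 / 2 ^ n - (a + b) ^ 2 / 2 ^ (n+1) ≤ D := by
      have e : a ^ 2 / 2 ^ n + b ^ 2 / 2 ^ n - (a + b) ^ 2 / 2 ^ (n+1) = (a - b) ^ 2 / 2 ^ n / 2 := by
        field_simp; ring
      rw [e]
      have : (a - b) ^ 2 / 2 ^ n ≤ D := by rw [div_le_iff₀ hp]; linarith
      linarith
    linarith

abbrev E (n : ℕ) := EuclideanSpace ℝ (Fin n)

/-- the local slope -/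
noncomputable def slope {n : ℕ} (g : E n → ℝ) (x : E n) : ENNReal :=
  Filter.limsup (fun y => ENNReal.ofReal (|g y - g x| / dist y x)) (nhdsWithin x {x}ᶜ)

lemma le_slope {n : ℕ} (g : E n → ℝ) (x v : E n) (hv : v ≠ 0) (r : ℝ)
    (h : ∀ s : ℝ, 0 < s → s * r ≤ g (x + s • v) - g x) :
    ENNReal.ofReal (r / ‖v‖) ≤ slope g x := by
  have hvn : 0 < ‖v‖ := norm_pos_iff.2 hv
  have ht : Tendsto (fun s : ℝ => x + s • v) (𝓝[>] 0) (𝓝[≠] x) := by
    apply tendsto_nhdsWithin_iff.2 ⟨?_, ?_⟩
    · have : Tendsto (fun s : ℝ => x + s • v) (𝓝 0) (𝓝 (x + (0:ℝ) • v)) :=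
        (Continuous.tendsto (by fun_prop) 0)
      simpa using this.mono_left nhdsWithin_le_nhds
    · filter_upwards [self_mem_nhdsWithin] with s hs
      simp only [Set.mem_compl_iff, Set.mem_singleton_iff, add_eq_left, smul_eq_zero, not_or]
      exact ⟨ne_of_gt hs, hv⟩
  apply Filter.le_limsup_of_frequently_le _ (by isBoundedDefault)
  apply ht.frequently
  apply Filter.Eventually.frequently
  filter_upwards [self_mem_nhdsWithin] with s hs
  have hs' : 0 < s := hs
  apply ENNReal.ofReal_le_ofReal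
  have hd : dist (x + s • v) x = s * ‖v‖ := by
    rw [dist_eq_norm, add_sub_cancel_left, norm_smul, Real.norm_of_nonneg hs'.le]
  rw [hd, div_le_div_iff₀ hvn (by positivity)]
  have h1 := h s hs'
  have h2 := le_abs_self (g (x + s • v) - g x)
  nlinarith

/-- vertex of the cube -/
noncomputable def vert {n : ℕ} (σ : Fin n → Bool) : E n :=
  WithLp.toLp 2 (fun i => if σ i then (1:ℝ) else -1)

lemma vert_apply {n : ℕ} (σ : Fin n → Bool) (i : Fin n) :
    vert σ i = if σ i then (1:ℝ) else -1 := rfl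

lemma vert_sq {n : ℕ} (σ : Fin n → Bool) (i : Fin n) : (vert σ i) ^ 2 = 1 := by
  rw [vert_apply]; split_ifs <;> norm_num

lemma norm_vert_sq {n : ℕ} (σ : Fin n → Bool) : ‖vert σ‖ ^ 2 = n := by
  rw [EuclideanSpace.norm_sq_eq]
  simp [vert_sq]

lemma vert_not {n : ℕ} (σ : Fin n → Bool) : vert (fun i => !σ i) = - vert σ := by
  ext i
  simp only [vert_apply, PiLp.neg_apply]
  cases σ i <;> simp

lemma vert_flip {n : ℕ} (σ : Fin n → Bool) (i j : Fin n) :
    vert (flip i σ) j = if j = i then - vert σ j else vert σ j := by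
  simp only [vert_apply, flip]
  by_cases h : j = i
  · subst h; simp only [Function.update_self, if_true]; cases σ j <;> simp
  · simp [h]

lemma sq_le_slope {n : ℕ} (g : E n → ℝ) (x : E n) (a K : ℝ) (ha : 0 ≤ a) (hK : 0 ≤ K)
    (h : ENNReal.ofReal a ≤ slope g x) :
    ENNReal.ofReal (K * a ^ 2) ≤ ENNReal.ofReal K * slope g x ^ 2 := by
  rw [ENNReal.ofReal_mul hK, ENNReal.ofReal_pow ha]
  gcongr

/-- radial bound -/
lemma radial {n : ℕ} (hn : 0 < n) (g : E n → ℝ) (hg : ConvexOn ℝ Set.univ g) (σ : Fin n → Bool) :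
    ENNReal.ofReal ((max (g (vert σ) - g 0) 0) ^ 2) ≤ ENNReal.ofReal n * slope g (vert σ) ^ 2 := by
  rcases le_total (g (vert σ) - g 0) 0 with h0 | h0
  · rw [max_eq_right h0]; simp
  rw [max_eq_left h0]
  have hnorm := norm_vert_sq σ
  have hnpos : (0:ℝ) < n := by exact_mod_cast hn
  have hv : vert σ ≠ 0 := by
    intro h; rw [h] at hnorm; simp at hnorm; linarith
  have hvn : 0 < ‖vert σ‖ := norm_pos_iff.2 hv
  have h1 := le_slope g (vert σ) (vert σ) hv (g (vert σ) - g 0) (fun s hs => by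
    have := hg.2 (Set.mem_univ (vert σ + s • vert σ)) (Set.mem_univ (0 : E n))
      (show 0 ≤ 1 / (1 + s) by positivity) (show 0 ≤ s / (1 + s) by positivity)
      (by field_simp)
    have e : (1 / (1 + s)) • (vert σ + s • vert σ) + (s / (1 + s)) • (0 : E n) = vert σ := by
      have : vert σ + s • vert σ = (1 + s) • vert σ := by rw [add_smul, one_smul]
      rw [this, smul_zero, add_zero, smul_smul, one_div, inv_mul_cancel₀ (by positivity), one_smul]
    rw [e] at this
    simp only [smul_eq_mul] at this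
    have h2 : (1 + s) * g (vert σ) ≤ g (vert σ + s • vert σ) + s * g 0 := by
      have := mul_le_mul_of_nonneg_left this (show 0 ≤ 1 + s by positivity)
      calc _ ≤ _ := this
        _ = _ := by field_simp
    linarith)
  have h2 := sq_le_slope g (vert σ) _ n (div_nonneg h0 hvn.le) hnpos.le h1
  have e : (n:ℝ) * ((g (vert σ) - g 0) / ‖vert σ‖) ^ 2 = (g (vert σ) - g 0) ^ 2 := by
    rw [div_pow, hnorm]; field_simp
  rwa [e] at h2

/-- bound for the flips -/
lemma flips {n : ℕ} (g : E n → ℝ) (hg : ConvexOn ℝ Set.univ g) (σ : Fin n → Bool) :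
    ENNReal.ofReal (∑ i, (max (g (vert σ) - g (vert (flip i σ))) 0) ^ 2) ≤
      ENNReal.ofReal 4 * slope g (vert σ) ^ 2 := by
  set a : Fin n → ℝ := fun i => max (g (vert σ) - g (vert (flip i σ))) 0 with ha
  have ha0 : ∀ i, 0 ≤ a i := fun i => le_max_right _ _
  set v : E n := WithLp.toLp 2 (fun i => a i * vert σ i) with hvdef
  have hvi : ∀ i, v i = a i * vert σ i := fun i => rfl
  have hnorm : ‖v‖ ^ 2 = ∑ i, a i ^ 2 := by
    rw [EuclideanSpace.norm_sq_eq]
    refine Finset.sum_congr rfl fun i _ => ?_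
    rw [Real.norm_eq_abs, sq_abs, hvi, mul_pow, vert_sq, mul_one]
  change ENNReal.ofReal (∑ i, a i ^ 2) ≤ _
  by_cases hv : v = 0
  · rw [← hnorm, hv]; simp
  have hvn : 0 < ‖v‖ := norm_pos_iff.2 hv
  have h1 := le_slope g (vert σ) v hv ((∑ i, a i ^ 2) / 2) (fun s hs => by
    set lam : ℝ := ∑ i, s * a i / 2 with hlam
    have hlam0 : 0 ≤ lam := Finset.sum_nonneg fun i _ => by have := ha0 i; positivity
    have hJ := hg.map_sum_le (t := (Finset.univ : Finset (Option (Fin n))))
      (w := fun o => Option.elim o (1 / (1 + lam)) (fun i => s * a i / 2 / (1 + lam)))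
      (p := fun o => Option.elim o (vert σ + s • v) (fun i => vert (flip i σ)))
      (fun o _ => by
        cases o with
        | none => simp only [Option.elim]; positivity
        | some i => simp only [Option.elim]; have := ha0 i; positivity)
      (by
        rw [Fintype.sum_option]
        simp only [Option.elim]
        rw [← Finset.sum_div, ← hlam]; field_simp)
      (fun _ _ => Set.mem_univ _)
    rw [Fintype.sum_option, Fintype.sum_option] at hJ
    simp only [Option.elim, smul_eq_mul] at hJ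
    have e : (1 / (1 + lam)) • (vert σ + s • v) +
        ∑ i, (s * a i / 2 / (1 + lam)) • vert (flip i σ) = vert σ := by
      ext j
      simp only [PiLp.add_apply, PiLp.smul_apply, smul_eq_mul, WithLp.ofLp_sum, Finset.sum_apply,
        hvi, vert_flip]
      have e2 : ∑ i, s * a i / 2 / (1 + lam) * (if j = i then - vert σ j else vert σ j) =
          (lam * vert σ j - s * a j * vert σ j) / (1 + lam) := by
        have : ∀ i, s * a i / 2 / (1 + lam) * (if j = i then - vert σ j else vert σ j) =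
            (s * a i / 2 * vert σ j - (if j = i then s * a j * vert σ j else 0)) / (1 + lam) := by
          intro i
          split_ifs with h
          · subst h; ring
          · ring
        simp only [this]
        rw [← Finset.sum_div, Finset.sum_sub_distrib, ← Finset.sum_mul, ← hlam]
        simp
      rw [e2]; field_simp; ring
    rw [e] at hJ
    have h2 : (1 + lam) * g (vert σ) ≤
        g (vert σ + s • v) + ∑ i, s * a i / 2 * g (vert (flip i σ)) := by
      have := mul_le_mul_of_nonneg_left hJ (show 0 ≤ 1 + lam by positivity)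
      calc _ ≤ _ := this
        _ = _ := by
          rw [mul_add, Finset.mul_sum]
          congr 1
          · field_simp
          · refine Finset.sum_congr rfl fun i _ => ?_
            field_simp
    have h3 : ∑ i, s * a i / 2 * (g (vert σ) - g (vert (flip i σ))) = s * ((∑ i, a i ^ 2) / 2) := by
      rw [Finset.sum_div, Finset.mul_sum]
      refine Finset.sum_congr rfl fun i _ => ?_
      rcases le_total (g (vert σ) - g (vert (flip i σ))) 0 with h | h
      · have : a i = 0 := max_eq_right h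
        rw [this]; ring
      · have : a i = g (vert σ) - g (vert (flip i σ)) := max_eq_left h
        rw [← this]; ring
    have h4 : ∑ i, s * a i / 2 * (g (vert σ) - g (vert (flip i σ))) =
        lam * g (vert σ) - ∑ i, s * a i / 2 * g (vert (flip i σ)) := by
      rw [hlam, Finset.sum_mul, ← Finset.sum_sub_distrib]
      refine Finset.sum_congr rfl fun i _ => by ring
    linarith)
  have h2 := sq_le_slope g (vert σ) _ 4 (by rw [← hnorm]; positivity) (by norm_num) h1
  have e : 4 * ((∑ i, a i ^ 2) / 2 / ‖v‖) ^ 2 = ∑ i, a i ^ 2 := by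
    rw [← hnorm]; field_simp; norm_num
  rwa [e] at h2

/-- Jensen on the cube -/
lemma jensen {n : ℕ} (g : E n → ℝ) (hg : ConvexOn ℝ Set.univ g) :
    2 ^ n * g 0 ≤ ∑ σ : Fin n → Bool, g (vert σ) := by
  have hinv : Function.Involutive (fun (σ : Fin n → Bool) i => !σ i) := fun σ => by
    funext i; simp
  have h1 : ∑ σ : Fin n → Bool, g (vert σ) = ∑ σ : Fin n → Bool, g (- vert σ) := by
    rw [← Equiv.sum_comp hinv.toPerm]
    refine Finset.sum_congr rfl fun σ _ => ?_
    rw [← vert_not]; rfl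
  have h2 : ∀ σ : Fin n → Bool, 2 * g 0 ≤ g (vert σ) + g (- vert σ) := fun σ => by
    have := hg.2 (Set.mem_univ (vert σ)) (Set.mem_univ (- vert σ))
      (show (0:ℝ) ≤ 1 / 2 by norm_num) (show (0:ℝ) ≤ 1 / 2 by norm_num) (by norm_num)
    simp only [smul_neg, add_neg_cancel, smul_eq_mul] at this
    linarith
  have h3 := Finset.sum_le_sum (s := (Finset.univ : Finset (Fin n → Bool))) fun σ _ => h2 σ
  rw [Finset.sum_add_distrib, ← h1] at h3
  simp only [Finset.sum_const, Finset.card_univ, Fintype.card_pi, Fintype.card_bool,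
    Finset.prod_const, Fintype.card_fin, nsmul_eq_mul, Nat.cast_pow, Nat.cast_ofNat] at h3
  linarith

/-- the measure: mass `ε` at the origin, the rest uniform on the cube -/
noncomputable def mu (n : ℕ) (ε : ℝ) : Measure (E n) :=
  ENNReal.ofReal ε • Measure.dirac 0 +
    ∑ σ : Fin n → Bool, ENNReal.ofReal ((1 - ε) / 2 ^ n) • Measure.dirac (vert σ)

lemma lintegral_mu (n : ℕ) (ε : ℝ) (φ : E n → ENNReal) :
    ∫⁻ x, φ x ∂(mu n ε) = ENNReal.ofReal ε * φ 0 +
      ∑ σ : Fin n → Bool, ENNReal.ofReal ((1 - ε) / 2 ^ n) * φ (vert σ) := by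
  unfold mu
  rw [lintegral_add_measure, lintegral_finsetSum_measure]
  simp only [lintegral_smul_measure, lintegral_dirac, smul_eq_mul]

lemma card_cube (n : ℕ) : (Fintype.card (Fin n → Bool) : ℝ) = 2 ^ n := by simp

lemma sum_const_w (n : ℕ) (ε : ℝ) (h1 : ε ≤ 1) :
    ∑ _σ : Fin n → Bool, ENNReal.ofReal ((1 - ε) / 2 ^ n) = ENNReal.ofReal (1 - ε) := by
  rw [← ENNReal.ofReal_sum_of_nonneg (fun _ _ => div_nonneg (by linarith) (by positivity))]
  congr 1
  rw [Finset.sum_const, Finset.card_univ, nsmul_eq_mul, card_cube]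
  field_simp

lemma mu_apply (n : ℕ) (ε : ℝ) (S : Set (E n)) :
    mu n ε S = ENNReal.ofReal ε * S.indicator 1 0 +
      ∑ σ : Fin n → Bool, ENNReal.ofReal ((1 - ε) / 2 ^ n) * S.indicator 1 (vert σ) := by
  unfold mu
  simp only [Measure.add_apply, Measure.smul_apply, Measure.finsetSum_apply, Measure.dirac_apply,
    smul_eq_mul]

lemma mu_prob (n : ℕ) (ε : ℝ) (h0 : 0 ≤ ε) (h1 : ε ≤ 1) : IsProbabilityMeasure (mu n ε) := by
  constructor
  rw [mu_apply]
  simp only [Set.indicator_univ, Pi.one_apply, mul_one]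
  rw [sum_const_w n ε h1, ← ENNReal.ofReal_add h0 (by linarith)]
  simp

lemma evar_le {n : ℕ} (μ : Measure (E n)) [IsProbabilityMeasure μ] (g : E n → ℝ)
    (hg : Measurable g) (c : ℝ) :
    evariance g μ ≤ ∫⁻ x, ENNReal.ofReal ((g x - c) ^ 2) ∂μ := by
  by_cases hm : MemLp g 2 μ
  · have hm2 : MemLp (fun x => g x - c) 2 μ := hm.sub (memLp_const c)
    rw [← hm.ofReal_variance_eq, ← variance_sub_const hg.aestronglyMeasurable c,
      ← ofReal_integral_eq_lintegral_ofReal hm2.integrable_sq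
        (Filter.Eventually.of_forall fun x => sq_nonneg _)]
    exact ENNReal.ofReal_le_ofReal (variance_le_expectation_sq hm2.aestronglyMeasurable)
  · have : ∫⁻ x, ENNReal.ofReal ((g x - c) ^ 2) ∂μ = ⊤ := by
      by_contra hne
      apply hm
      have hmeas : AEStronglyMeasurable (fun x => g x - c) μ :=
        (hg.sub_const c).aestronglyMeasurable
      have h2 : MemLp (fun x => g x - c) 2 μ := by
        rw [memLp_two_iff_integrable_sq hmeas]
        refine ⟨((hg.sub_const c).pow_const 2).aestronglyMeasurable, ?_⟩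
        rw [hasFiniteIntegral_iff_ofReal (Filter.Eventually.of_forall fun x => sq_nonneg _)]
        exact lt_top_iff_ne_top.2 hne
      have := h2.add (memLp_const c)
      convert this using 1
      funext x; simp
    rw [this]; exact le_top

/-- the convex Poincaré inequality with constant `10` -/
lemma poincare (n : ℕ) (hn : 2 ≤ n) (g : E n → ℝ) (hc : Continuous g)
    (hg : ConvexOn ℝ Set.univ g) :
    evariance g (mu n (1 / n)) ≤ ENNReal.ofReal 10 * ∫⁻ x, slope g x ^ 2 ∂(mu n (1 / n)) := by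
  have hn' : (2:ℝ) ≤ n := by exact_mod_cast hn
  have hnpos : (0:ℝ) < n := by linarith
  have hε0 : (0:ℝ) ≤ 1 / n := by positivity
  have hε : (1:ℝ) / n ≤ 1 / 2 := one_div_le_one_div_of_le (by norm_num) hn'
  have := mu_prob n (1 / n) hε0 (by linarith)
  set ε : ℝ := 1 / n with hεdef
  have hεn : ε * n = 1 := by rw [hεdef]; field_simp
  have hp : (0:ℝ) < 2 ^ n := by positivity
  set A : ℝ := (∑ σ : Fin n → Bool, g (vert σ)) / 2 ^ n with hA
  refine (evar_le _ g hc.measurable A).trans ?_
  rw [lintegral_mu, lintegral_mu]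
  set b : (Fin n → Bool) → ℝ := fun σ => (max (g (vert σ) - g 0) 0) ^ 2 with hb
  set a : (Fin n → Bool) → ℝ :=
    fun σ => ∑ i, (max (g (vert σ) - g (vert (flip i σ))) 0) ^ 2 with ha
  have hb0 : ∀ σ, 0 ≤ b σ := fun σ => sq_nonneg _
  have ha0 : ∀ σ, 0 ≤ a σ := fun σ => Finset.sum_nonneg fun _ _ => sq_nonneg _
  have hw : 0 ≤ (1 - ε) / 2 ^ n := div_nonneg (by linarith) hp.le
  -- real estimate
  have r1 : (g 0 - A) ^ 2 ≤ (∑ σ, b σ) / 2 ^ n := by
    have hJ := jensen g hg
    have hA0 : g 0 ≤ A := by rw [hA, le_div_iff₀ hp]; linarith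
    have h1 : 2 ^ n * (A - g 0) ≤ ∑ σ : Fin n → Bool, max (g (vert σ) - g 0) 0 := by
      have : ∑ σ : Fin n → Bool, (g (vert σ) - g 0) ≤
          ∑ σ : Fin n → Bool, max (g (vert σ) - g 0) 0 :=
        Finset.sum_le_sum fun σ _ => le_max_left _ _
      rw [Finset.sum_sub_distrib, Finset.sum_const, Finset.card_univ, nsmul_eq_mul,
        card_cube] at this
      have e : 2 ^ n * A = ∑ σ : Fin n → Bool, g (vert σ) := by rw [hA]; field_simp
      linarith
    have hcs := sq_sum_le_card_mul_sum_sq (s := (Finset.univ : Finset (Fin n → Bool)))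
      (f := fun σ => max (g (vert σ) - g 0) 0)
    rw [Finset.card_univ, card_cube] at hcs
    have h2 : (2 ^ n * (A - g 0)) ^ 2 ≤ 2 ^ n * ∑ σ, b σ :=
      (pow_le_pow_left₀ (mul_nonneg hp.le (by linarith)) h1 2).trans hcs
    rw [le_div_iff₀ hp]
    have h3 : 2 ^ n * ((g 0 - A) ^ 2 * 2 ^ n) ≤ 2 ^ n * ∑ σ, b σ := by
      calc _ = (2 ^ n * (A - g 0)) ^ 2 := by ring
        _ ≤ _ := h2
    exact le_of_mul_le_mul_left h3 hp
  have r2 : ∑ σ : Fin n → Bool, (g (vert σ) - A) ^ 2 ≤ ∑ σ, a σ := by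
    have h := efron_stein n (fun σ => g (vert σ))
    have e : ∑ σ : Fin n → Bool, (g (vert σ) - A) ^ 2 =
        ∑ σ : Fin n → Bool, g (vert σ) ^ 2 - (∑ σ : Fin n → Bool, g (vert σ)) ^ 2 / 2 ^ n := by
      have : ∀ σ : Fin n → Bool, (g (vert σ) - A) ^ 2 =
          g (vert σ) ^ 2 - 2 * A * g (vert σ) + A ^ 2 := fun σ => by ring
      simp only [this]
      rw [Finset.sum_add_distrib, Finset.sum_sub_distrib, ← Finset.mul_sum, Finset.sum_const,
        Finset.card_univ, nsmul_eq_mul, card_cube, hA]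
      field_simp; ring
    rw [e]; exact h
  have r3 : ε * (g 0 - A) ^ 2 + ∑ σ : Fin n → Bool, (1 - ε) / 2 ^ n * (g (vert σ) - A) ^ 2 ≤
      ∑ σ : Fin n → Bool, (1 - ε) / 2 ^ n * (2 * ε * b σ + a σ) := by
    rw [← Finset.mul_sum, ← Finset.mul_sum, Finset.sum_add_distrib, ← Finset.mul_sum, mul_add]
    have s0 : 0 ≤ (∑ σ, b σ) / 2 ^ n := div_nonneg (Finset.sum_nonneg fun σ _ => hb0 σ) hp.le
    have h1 : ε * (g 0 - A) ^ 2 ≤ (1 - ε) / 2 ^ n * (2 * ε * ∑ σ, b σ) := by
      have e : (1 - ε) / 2 ^ n * (2 * ε * ∑ σ, b σ) = (2 * (1 - ε)) * (ε * ((∑ σ, b σ) / 2 ^ n)) := by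
        ring
      rw [e]
      have h2 := mul_le_mul_of_nonneg_left r1 hε0
      have h3 : 0 ≤ ε * ((∑ σ, b σ) / 2 ^ n) := mul_nonneg hε0 s0
      nlinarith
    have h2 := mul_le_mul_of_nonneg_left r2 hw
    linarith
  calc _ = ENNReal.ofReal (ε * (g 0 - A) ^ 2 +
        ∑ σ : Fin n → Bool, (1 - ε) / 2 ^ n * (g (vert σ) - A) ^ 2) := by
        rw [ENNReal.ofReal_add (by positivity)
          (Finset.sum_nonneg fun σ _ => mul_nonneg hw (sq_nonneg _)), ENNReal.ofReal_mul hε0,
          ENNReal.ofReal_sum_of_nonneg (fun σ _ => mul_nonneg hw (sq_nonneg _))]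
        simp only [ENNReal.ofReal_mul hw]
    _ ≤ ENNReal.ofReal (∑ σ : Fin n → Bool, (1 - ε) / 2 ^ n * (2 * ε * b σ + a σ)) :=
        ENNReal.ofReal_le_ofReal r3
    _ = ∑ σ : Fin n → Bool, ENNReal.ofReal ((1 - ε) / 2 ^ n) *
          (ENNReal.ofReal (2 * ε) * ENNReal.ofReal (b σ) + ENNReal.ofReal (a σ)) := by
        rw [ENNReal.ofReal_sum_of_nonneg (fun σ _ => mul_nonneg hw
          (add_nonneg (mul_nonneg (by positivity) (hb0 σ)) (ha0 σ)))]
        refine Finset.sum_congr rfl fun σ _ => ?_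
        rw [ENNReal.ofReal_mul hw, ENNReal.ofReal_add (mul_nonneg (by positivity) (hb0 σ)) (ha0 σ),
          ENNReal.ofReal_mul (by positivity)]
    _ ≤ ∑ σ : Fin n → Bool, ENNReal.ofReal ((1 - ε) / 2 ^ n) *
          (ENNReal.ofReal 10 * slope g (vert σ) ^ 2) := by
        refine Finset.sum_le_sum fun σ _ => ?_
        gcongr
        have h1 := radial (by omega) g hg σ
        have h2 := flips g hg σ
        calc _ ≤ ENNReal.ofReal (2 * ε) * (ENNReal.ofReal n * slope g (vert σ) ^ 2) +
              ENNReal.ofReal 4 * slope g (vert σ) ^ 2 := by gcongr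
          _ = ENNReal.ofReal (2 * ε * n + 4) * slope g (vert σ) ^ 2 := by
              rw [ENNReal.ofReal_add (by positivity) (by norm_num),
                ENNReal.ofReal_mul (p := 2 * ε) (by positivity)]
              ring
          _ ≤ _ := by
              gcongr
              nlinarith
    _ = ENNReal.ofReal 10 * ∑ σ : Fin n → Bool, ENNReal.ofReal ((1 - ε) / 2 ^ n) *
          slope g (vert σ) ^ 2 := by
        rw [Finset.mul_sum]
        refine Finset.sum_congr rfl fun σ _ => by ring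
    _ ≤ _ := by gcongr; exact le_add_self

end Pool.Agent.H296Z.ConvPoin
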