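import Pool.Agent.H113Z.Dist.Defs

/-! The cut-off lemma and the conjugation lemma for the distortion of `x - x^2`. -/

namespace Pool.Agent.H113Z.Dist
open Filter Topology Set Asymptotics

namespace H296

theorem mem_Icc_iff {ρ : Pm} {α β : ℝ} (hm : StrictMono ρ) (ha : ρ α = α) (hb : ρ β = β) (x : ℝ) :
    ρ x ∈ Icc α β ↔ x ∈ Icc α β := by
  have h1 : α ≤ ρ x ↔ α ≤ x := by
    conv_lhs => rw [← ha]
    exact hm.le_iff_le
  have h2 : ρ x ≤ β ↔ x ≤ β := by
    conv_lhs => rw [← hb]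
    exact hm.le_iff_le
  simp only [mem_Icc, h1, h2]

open Classical in
/-- the cut-off permutation -/
noncomputable def cutP (ρ : Pm) (α β : ℝ) (h : ∀ x, ρ x ∈ Icc α β ↔ x ∈ Icc α β) : Pm where
  toFun x := if x ∈ Icc α β then ρ x else x
  invFun y := if y ∈ Icc α β then ρ.symm y else y
  left_inv x := by
    by_cases hx : x ∈ Icc α β
    · have h2 := (h x).2 hx
      simp only [if_pos hx, if_pos h2, Equiv.symm_apply_apply]
    · simp only [if_neg hx]
  right_inv y := by
    by_cases hy : y ∈ Icc α β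
    · have h2 : ρ.symm y ∈ Icc α β := (h _).1 (by simpa using hy)
      simp only [if_pos hy, if_pos h2, Equiv.apply_symm_apply]
    · simp only [if_neg hy]

theorem cutP_in {ρ : Pm} {α β : ℝ} (h : ∀ x, ρ x ∈ Icc α β ↔ x ∈ Icc α β) {x : ℝ}
    (hx : x ∈ Icc α β) : cutP ρ α β h x = ρ x := by
  simp only [cutP, Equiv.coe_fn_mk, if_pos hx]

theorem cutP_out {ρ : Pm} {α β : ℝ} (h : ∀ x, ρ x ∈ Icc α β ↔ x ∈ Icc α β) {x : ℝ}
    (hx : x ∉ Icc α β) : cutP ρ α β h x = x := by
  simp only [cutP, Equiv.coe_fn_mk, if_neg hx]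

theorem cutP_fix {ρ : Pm} {α β : ℝ} (h : ∀ x, ρ x ∈ Icc α β ↔ x ∈ Icc α β) {x : ℝ}
    (hx : ρ x = x) : cutP ρ α β h x = x := by
  by_cases h1 : x ∈ Icc α β
  · rw [cutP_in h h1, hx]
  · exact cutP_out h h1

/-- an increasing bijection of the line as a homeomorphism -/
noncomputable def homeo (F : Pm) (hF : StrictMono F) : ℝ ≃ₜ ℝ :=
  (hF.orderIsoOfSurjective F F.surjective).toHomeomorph

theorem homeo_coe (F : Pm) (hF : StrictMono F) : ⇑(homeo F hF) = ⇑F := rfl

theorem homeo_symm (F : Pm) (hF : StrictMono F) : ⇑(homeo F hF).symm = ⇑F⁻¹ := by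
  funext y
  apply F.injective
  have h1 : F ((homeo F hF).symm y) = y := (homeo F hF).apply_symm_apply y
  rw [h1]
  simp

theorem inv_strictMono (F : Pm) (hF : StrictMono F) : StrictMono ⇑F⁻¹ := by
  intro x y hxy
  apply hF.lt_iff_lt.1
  simpa using hxy

theorem tendsto_top (F : Pm) (hF : StrictMono F) : Tendsto F atTop atTop :=
  (hF.orderIsoOfSurjective F F.surjective).tendsto_atTop

theorem inv_contDiffAt (F : Pm) (hF : StrictMono F) (x : ℝ) (hc : ContDiffAt ℝ 2 F x)
    (hd : deriv F x ≠ 0) : ContDiffAt ℝ 2 (⇑F⁻¹) (F x) := by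
  have hx : (homeo F hF).toOpenPartialHomeomorph.symm (F x) = x :=
    (homeo F hF).symm_apply_apply x
  have h1 : HasDerivAt F (deriv F x) x := (hc.differentiableAt (by norm_num)).hasDerivAt
  have h2 := (homeo F hF).toOpenPartialHomeomorph.contDiffAt_symm_deriv (n := 2) hd
    (mem_univ (F x)) (by rw [hx]; exact h1) (by rw [hx]; exact hc)
  rw [← homeo_symm F hF]
  exact h2

theorem deriv_one {a : ℝ} {F : ℝ → ℝ} (h : As a F) : Tendsto (deriv F) atTop (𝓝 1) := by
  have h1 := h.2.2.1.mul tendsto_inv_atTop_zero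
  rw [mul_zero] at h1
  have h2 := h1.add_const 1
  rw [zero_add] at h2
  refine h2.congr' ?_
  filter_upwards [eventually_gt_atTop 0] with y hy
  field_simp
  ring

end H296

open H296

theorem cut : CutStmt := by
  intro ρ α β hρ hab ha hb
  have hm : StrictMono ρ := strictMono_of_deriv_pos hρ.2
  have h := mem_Icc_iff hm ha.eq_of_nhds hb.eq_of_nhds
  have hfix : ∀ x, (⇑ρ =ᶠ[𝓝 x] id) → (⇑(cutP ρ α β h) =ᶠ[𝓝 x] id) := fun x hx =>
    hx.mono fun y hy => cutP_fix h hy
  have h1 : ∀ x ∈ Icc α β, ⇑(cutP ρ α β h) =ᶠ[𝓝 x] ⇑ρ := by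
    intro x hx
    rcases eq_or_lt_of_le hx.1 with h2 | h2
    · subst h2
      exact (hfix _ ha).trans ha.symm
    rcases eq_or_lt_of_le hx.2 with h3 | h3
    · subst h3
      exact (hfix _ hb).trans hb.symm
    filter_upwards [Icc_mem_nhds h2 h3] with y hy using cutP_in h hy
  have h2 : ∀ x, x ≤ α ∨ β ≤ x → ⇑(cutP ρ α β h) =ᶠ[𝓝 x] id := by
    rintro x (hx | hx)
    · rcases eq_or_lt_of_le hx with h2 | h2
      · subst h2
        exact hfix _ ha
      filter_upwards [Iio_mem_nhds h2] with y hy using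
        cutP_out h fun h3 => absurd h3.1 (not_le.2 hy)
    · rcases eq_or_lt_of_le hx with h2 | h2
      · subst h2
        exact hfix _ hb
      filter_upwards [Ioi_mem_nhds h2] with y hy using
        cutP_out h fun h3 => absurd h3.2 (not_le.2 hy)
  have h3 : ∀ x, (⇑(cutP ρ α β h) =ᶠ[𝓝 x] ⇑ρ) ∨ (⇑(cutP ρ α β h) =ᶠ[𝓝 x] id) := by
    intro x
    by_cases hx : x ∈ Icc α β
    · exact Or.inl (h1 x hx)
    · refine Or.inr (h2 x ?_)
      by_contra h4
      push Not at h4
      exact hx ⟨h4.1.le, h4.2.le⟩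
  refine ⟨cutP ρ α β h, ⟨?_, ?_⟩, fun x hx => (h2 x hx).eq_of_nhds, h1, h2⟩
  · rw [contDiff_iff_contDiffAt]
    intro x
    rcases h3 x with h4 | h4
    · exact hρ.1.contDiffAt.congr_of_eventuallyEq h4
    · exact contDiffAt_id.congr_of_eventuallyEq h4
  · intro x
    rcases h3 x with h4 | h4
    · rw [h4.deriv_eq]; exact hρ.2 x
    · rw [h4.deriv_eq]; simp

theorem conj : ConjStmt := by
  intro a F1 F2 m1 m2 A1 A2
  set h : ℝ → ℝ := ⇑(F2⁻¹ * F1) with hh
  have hcomp : h = ⇑F2⁻¹ ∘ ⇑F1 := rfl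
  have hF : ⇑F2 ∘ h = ⇑F1 := by
    funext y
    simp [hcomp]
  have hFy : ∀ y, F2 (h y) = F1 y := fun y => congrFun hF y
  have htop : Tendsto h atTop atTop :=
    tendsto_top (F2⁻¹ * F1) ((inv_strictMono F2 m2).comp m1)
  obtain ⟨Y1, c1⟩ := A1.1
  obtain ⟨Y2, c2⟩ := A2.1
  have d1 := deriv_one A1
  have d2 := deriv_one A2
  obtain ⟨Y3, hY3⟩ := eventually_atTop.1
    ((d2.eventually (lt_mem_nhds (show (1 / 2 : ℝ) < 1 by norm_num))).and (eventually_gt_atTop Y2))
  have c2' : ∀ y, Y3 ≤ y → ContDiffAt ℝ 2 F2 y := fun y hy =>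
    c2.contDiffAt (Ioi_mem_nhds (hY3 y hy).2)
  have E : ∀ᶠ y in atTop, Y1 < y ∧ Y3 ≤ y ∧ Y3 ≤ h y ∧ 0 < y ∧ 0 < h y :=
    (eventually_gt_atTop Y1).and ((eventually_ge_atTop Y3).and
      ((htop.eventually (eventually_ge_atTop Y3)).and ((eventually_gt_atTop 0).and
        (htop.eventually (eventually_gt_atTop 0)))))
  have ch : ∀ y, Y1 < y → Y3 ≤ h y → ContDiffAt ℝ 2 h y := by
    intro y h1 h2
    have h3 := inv_contDiffAt F2 m2 (h y) (c2' _ h2) (by linarith [(hY3 _ h2).1])
    rw [hFy] at h3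
    exact h3.comp y (c1.contDiffAt (Ioi_mem_nhds h1))
  -- the difference
  have mvt : ∀ x y, Y3 ≤ x → Y3 ≤ y → |x - y| ≤ 2 * |F2 x - F2 y| := by
    have key := (convex_Ici Y3).mul_sub_le_image_sub_of_le_deriv (f := F2) (C := 1 / 2)
      (fun y hy => (c2' y hy).continuousAt.continuousWithinAt)
      (fun y hy => ((c2' y (interior_subset hy)).differentiableAt
        (by norm_num)).differentiableWithinAt)
      (fun y hy => (hY3 y (interior_subset hy)).1.le)
    intro x y hx hy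
    rcases le_total x y with h1 | h1
    · have := key x hx y hy h1
      rw [abs_of_nonpos (by linarith), abs_of_nonpos (by linarith)]
      linarith
    · have := key y hy x hx h1
      rw [abs_of_nonneg (by linarith), abs_of_nonneg (by linarith)]
      linarith
  have t0 : Tendsto (fun y => h y - y) atTop (𝓝 0) := by
    have h1 := ((A1.2.1.sub A2.2.1).abs).const_mul 2
    simp only [sub_self, abs_zero, mul_zero] at h1
    refine squeeze_zero_norm' ?_ h1
    filter_upwards [E] with y hy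
    have h2 := mvt (h y) y hy.2.2.1 hy.2.1
    rw [hFy] at h2
    have h3 : F1 y - (y - a * Real.log y) - (F2 y - (y - a * Real.log y)) = F1 y - F2 y := by ring
    rw [Real.norm_eq_abs, h3]
    exact h2
  have tq : Tendsto (fun y => y / h y) atTop (𝓝 1) := by
    have h1 := (t0.mul (tendsto_inv_atTop_zero.comp htop)).const_sub 1
    simp only [mul_zero, sub_zero] at h1
    refine h1.congr' ?_
    filter_upwards [E] with y hy
    have := hy.2.2.2.2.ne'
    simp only [Function.comp]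
    field_simp
    ring
  have e1 : ∀ᶠ y in atTop, deriv F2 (h y) * deriv h y = deriv F1 y := by
    filter_upwards [E] with y hy
    rw [← hF]
    exact (deriv_comp y ((c2' _ hy.2.2.1).differentiableAt (by norm_num))
      ((ch y hy.1 hy.2.2.1).differentiableAt (by norm_num))).symm
  have e2 : ∀ᶠ y in atTop,
      D 2 F2 (h y) * deriv h y ^ 2 + deriv F2 (h y) * D 2 h y = D 2 F1 y := by
    filter_upwards [E] with y hy
    rw [← hF]
    exact (iteratedDeriv_comp_two (c2' _ hy.2.2.1) (ch y hy.1 hy.2.2.1)).symm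
  have d2h : Tendsto (fun y => deriv F2 (h y)) atTop (𝓝 1) := d2.comp htop
  have dh : Tendsto (deriv h) atTop (𝓝 1) := by
    have h1 := d1.div d2h one_ne_zero
    rw [div_one] at h1
    refine h1.congr' ?_
    filter_upwards [E, e1] with y hy h2
    have h3 : deriv F2 (h y) ≠ 0 := by linarith [(hY3 _ hy.2.2.1).1]
    simp only [Pi.div_apply]
    rw [← h2]
    field_simp
  refine ⟨?_, ?_, ?_, ?_⟩
  · obtain ⟨Y, hY⟩ := eventually_atTop.1 E
    exact ⟨Y, fun y hy => (ch y (hY y (le_of_lt hy)).1 (hY y (le_of_lt hy)).2.2.1).contDiffWithinAt⟩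
  · simpa using t0
  · have h1 := (A1.2.2.1.sub (tq.mul (A2.2.2.1.comp htop))).div d2h one_ne_zero
    simp only [one_mul, sub_self, zero_div] at h1
    refine h1.congr' ?_
    filter_upwards [E, e1] with y hy h2
    have h3 : deriv F2 (h y) ≠ 0 := by linarith [(hY3 _ hy.2.2.1).1]
    have h4 := hy.2.2.2.2.ne'
    simp only [Pi.div_apply, Function.comp]
    rw [← h2]
    field_simp
    ring
  · have h1 := (A1.2.2.2.sub (((tq.pow 2).mul (A2.2.2.2.comp htop)).mul (dh.pow 2))).div d2h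
      one_ne_zero
    simp only [one_pow, one_mul, mul_one, sub_self, zero_div] at h1
    refine h1.congr' ?_
    filter_upwards [E, e2] with y hy h2
    have h3 : deriv F2 (h y) ≠ 0 := by linarith [(hY3 _ hy.2.2.1).1]
    have h4 := hy.2.2.2.2.ne'
    simp only [Pi.div_apply, Function.comp]
    rw [← h2]
    field_simp
    ring

end Pool.Agent.H113Z.Dist
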