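import Mathlib

set_option autoImplicit false

open Finset

namespace Pool.Agent.H296Z.EDP

lemma reindex (S : Set ℕ) (s : ℕ → ℕ) (hs : StrictMono s) (h1 : ∀ j, 1 ≤ s j)
    (hS : ∀ k, 1 ≤ k → (k ∈ S ↔ ∃ j, s j = k)) (f : ℕ → ℂ) (n : ℕ) :
    ∃ N, ∑ k ∈ Icc 1 n, S.indicator f k = ∑ j ∈ range N, f (s j) := by
  classical
  have hex : ∃ j, n < s j := ⟨n + 1, lt_of_lt_of_le (Nat.lt_succ_self n) (hs.id_le _)⟩
  refine ⟨Nat.find hex, ?_⟩
  rw [← Finset.sum_image (s := range (Nat.find hex)) (g := s) (f := f)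
    (fun a _ b _ h => hs.injective h)]
  rw [← Finset.sum_subset (s₁ := (range (Nat.find hex)).image s) (s₂ := Icc 1 n)]
  · refine Finset.sum_congr rfl fun k hk => ?_
    obtain ⟨j, -, rfl⟩ := mem_image.1 hk
    exact Set.indicator_of_mem ((hS _ (h1 j)).2 ⟨j, rfl⟩) _
  · intro k hk
    obtain ⟨j, hj, rfl⟩ := mem_image.1 hk
    exact mem_Icc.2 ⟨h1 j, not_lt.1 (Nat.find_min hex (mem_range.1 hj))⟩
  · intro k hk hk2
    apply Set.indicator_of_notMem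
    intro hkS
    obtain ⟨j, rfl⟩ := (hS k (mem_Icc.1 hk).1).1 hkS
    apply hk2
    refine mem_image.2 ⟨j, mem_range.2 ?_, rfl⟩
    by_contra hj
    have := hs.monotone (not_lt.1 hj)
    have h2 := Nat.find_spec hex
    have h3 := (mem_Icc.1 hk).2
    omega

lemma blocks (g : ℕ → ℂ) (hg : ∀ j, ‖g j‖ ≤ 1) (P : ℕ) (hP : 0 < P) (C : ℝ)
    (h : ∀ T, ‖∑ j ∈ range (P * T), g j‖ ≤ C) (N : ℕ) : ‖∑ j ∈ range N, g j‖ ≤ C + P := by
  rw [← Nat.div_add_mod N P, Finset.sum_range_add]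
  refine (norm_add_le _ _).trans (add_le_add (h _) ?_)
  refine (norm_sum_le _ _).trans ?_
  refine (Finset.sum_le_card_nsmul _ _ 1 fun j _ => hg _).trans ?_
  rw [card_range, nsmul_eq_mul, mul_one]
  exact_mod_cast (Nat.mod_lt N hP).le

lemma zero_blocks (g : ℕ → ℂ) (P : ℕ) (h : ∀ T, ∑ j ∈ range P, g (P * T + j) = 0) (T : ℕ) :
    ∑ j ∈ range (P * T), g j = 0 := by
  induction T with
  | zero => simp
  | succ T ih => rw [Nat.mul_succ, Finset.sum_range_add, ih, h, add_zero]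

lemma bounded_of_zero_blocks (g : ℕ → ℂ) (hg : ∀ j, ‖g j‖ ≤ 1) (P : ℕ) (hP : 0 < P)
    (h : ∀ T, ∑ j ∈ range P, g (P * T + j) = 0) (N : ℕ) : ‖∑ j ∈ range N, g j‖ ≤ P := by
  have := blocks g hg P hP 0 (fun T => by rw [zero_blocks g P h T, norm_zero]) N
  simpa using this

/-! ### the function for `n² ± 1` -/

/-- `χ₋₈` of the odd part -/
def a (m : ℕ) : ℤ := ZMod.χ₈' ((ordCompl[2] m : ℕ) : ZMod 8)

lemma a_mul (m n : ℕ) : a (m * n) = a m * a n := by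
  unfold a
  rw [Nat.ordCompl_mul, Nat.cast_mul, map_mul]

lemma a_odd (m : ℕ) (hm : ¬ 2 ∣ m) : a m = ZMod.χ₈' (m : ZMod 8) := by
  unfold a
  rw [Nat.factorization_eq_zero_of_not_dvd hm]
  simp

lemma a_two : a 2 = 1 := by
  unfold a
  rw [Nat.Prime.factorization_self Nat.prime_two]
  decide

lemma a_two_mul (m : ℕ) : a (2 * m) = a m := by rw [a_mul, a_two, one_mul]

lemma a_norm (m : ℕ) (hm : 1 ≤ m) : ‖(a m : ℂ)‖ = 1 := by
  have h : ¬ 2 ∣ ordCompl[2] m := Nat.not_dvd_ordCompl Nat.prime_two (by omega)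
  have h2 : ∀ u : ZMod 8, ZMod.χ₈' (2 * u + 1) = 1 ∨ ZMod.χ₈' (2 * u + 1) = -1 := by decide
  obtain ⟨u, hu⟩ : ∃ u, ordCompl[2] m = 2 * u + 1 := ⟨ordCompl[2] m / 2, by omega⟩
  unfold a
  rw [hu]
  push_cast
  rcases h2 u with h3 | h3 <;> rw [h3] <;> simp

lemma plus_even (u : ℕ) : a ((2 * u) ^ 2 + 1) = ZMod.χ₈' (4 * (u : ZMod 8) ^ 2 + 1) := by
  rw [a_odd _ (by
    have : (2 * u) ^ 2 + 1 = 2 * (2 * u ^ 2) + 1 := by ring
    omega)]
  congr 1; push_cast; ring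

lemma plus_odd (u : ℕ) :
    a ((2 * u + 1) ^ 2 + 1) = ZMod.χ₈' (2 * (u : ZMod 8) ^ 2 + 2 * u + 1) := by
  have : (2 * u + 1) ^ 2 + 1 = 2 * (2 * (u ^ 2 + u) + 1) := by ring
  rw [this, a_two_mul, a_odd _ (by omega)]
  congr 1; push_cast; ring

lemma plus_block (T : ℕ) : ∑ j ∈ range 8, a ((8 * T + j + 1) ^ 2 + 1) = 0 := by
  simp only [Finset.sum_range_succ, Finset.sum_range_zero]
  rw [show 8 * T + 7 + 1 = 2 * (4 * T + 4) by ring, show 8 * T + 6 + 1 = 2 * (4 * T + 3) + 1 by ring,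
    show 8 * T + 5 + 1 = 2 * (4 * T + 3) by ring, show 8 * T + 4 + 1 = 2 * (4 * T + 2) + 1 by ring,
    show 8 * T + 3 + 1 = 2 * (4 * T + 2) by ring, show 8 * T + 2 + 1 = 2 * (4 * T + 1) + 1 by ring,
    show 8 * T + 1 + 1 = 2 * (4 * T + 1) by ring, show 8 * T + 0 + 1 = 2 * (4 * T) + 1 by ring]
  simp only [plus_even, plus_odd]
  push_cast
  generalize (T : ZMod 8) = t
  revert t
  decide

lemma plus_bound (N : ℕ) : ‖∑ j ∈ range N, (a ((j + 1) ^ 2 + 1) : ℂ)‖ ≤ 8 := by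
  have := bounded_of_zero_blocks (fun j => (a ((j + 1) ^ 2 + 1) : ℂ))
    (fun j => (a_norm _ (by omega)).le) 8 (by norm_num) (fun T => by
      have := plus_block T
      exact_mod_cast this) N
  exact_mod_cast this

lemma minus_four (t : ℕ) : ∑ j ∈ range 4, a ((4 * t + j + 2) * (4 * t + j + 4)) =
    ZMod.χ₈' ((t : ZMod 8) + 1) *
      (ZMod.χ₈' (2 * (t : ZMod 8) + 1) + ZMod.χ₈' (2 * (t : ZMod 8) + 3)) := by
  simp only [Finset.sum_range_succ, Finset.sum_range_zero, a_mul]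
  rw [show 4 * t + 2 + 4 = 2 * (2 * t + 3) by ring, show 4 * t + 2 + 2 = 2 * (2 * (t + 1)) by ring,
    show 4 * t + 0 + 2 = 2 * (2 * t + 1) by ring]
  simp only [a_two_mul]
  rw [a_odd (2 * t + 1) (by omega), a_odd (2 * t + 3) (by omega), a_odd (4 * t + 1 + 2) (by omega),
    a_odd (4 * t + 1 + 4) (by omega), a_odd (4 * t + 3 + 4) (by omega)]
  push_cast
  have h1 : ∀ τ : ZMod 8, ZMod.χ₈' (4 * τ + 1 + 2) * ZMod.χ₈' (4 * τ + 1 + 4) +
      ZMod.χ₈' (4 * τ + 1 + 4) * ZMod.χ₈' (4 * τ + 3 + 4) = 0 := by decide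
  have h2 := h1 t
  by_cases h : 2 ∣ t + 1
  · obtain ⟨u, hu⟩ := h
    have hu' : (t : ZMod 8) = 2 * (u : ZMod 8) - 1 := by
      have : ((t + 1 : ℕ) : ZMod 8) = ((2 * u : ℕ) : ZMod 8) := by rw [hu]
      push_cast at this
      linear_combination this
    have h3 : ∀ v : ZMod 8, ZMod.χ₈' (2 * (2 * v - 1) + 1) + ZMod.χ₈' (2 * (2 * v - 1) + 3) = 0 := by
      decide
    have h4 := h3 u
    rw [← hu'] at h4
    linear_combination h2 + (a (t + 1) - ZMod.χ₈' ((t : ZMod 8) + 1)) * h4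
  · rw [a_odd _ h]
    push_cast
    linear_combination h2

lemma minus_block (T : ℕ) : ∑ j ∈ range 32, a ((32 * T + j + 2) * (32 * T + j + 4)) = 0 := by
  have key : ∀ r : ℕ, ∑ j ∈ range (4 * r), a ((32 * T + j + 2) * (32 * T + j + 4)) =
      ∑ i ∈ range r, ZMod.χ₈' ((i : ZMod 8) + 1) *
        (ZMod.χ₈' (2 * (i : ZMod 8) + 1) + ZMod.χ₈' (2 * (i : ZMod 8) + 3)) := by
    intro r
    induction r with
    | zero => simp
    | succ r ih =>
      rw [Nat.mul_succ, Finset.sum_range_add, ih, Finset.sum_range_succ _ r]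
      congr 1
      have h := minus_four (8 * T + r)
      have e : ((8 * T + r : ℕ) : ZMod 8) = (r : ZMod 8) := by
        push_cast
        have : (8 : ZMod 8) = 0 := rfl
        rw [this]; ring
      rw [e] at h
      rw [← h]
      refine Finset.sum_congr rfl fun j _ => ?_
      congr 2 <;> ring
  rw [show 32 = 4 * 8 from rfl] at *
  rw [key 8]
  decide

lemma minus_bound (N : ℕ) : ‖∑ j ∈ range N, (a ((j + 2) ^ 2 - 1) : ℂ)‖ ≤ 33 := by
  have h := bounded_of_zero_blocks (fun j => (a ((j + 2) * (j + 4)) : ℂ))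
    (fun j => (a_norm _ (Nat.mul_pos (by omega) (by omega))).le) 32 (by norm_num) (fun T => by
      have := minus_block T
      exact_mod_cast this)
  cases N with
  | zero => simp
  | succ N =>
    rw [Finset.sum_range_succ']
    refine (norm_add_le _ _).trans ?_
    have h1 := h N
    have e : ∀ j : ℕ, (j + 1 + 2) ^ 2 - 1 = (j + 2) * (j + 4) := fun j => by
      have : (j + 1 + 2) ^ 2 = (j + 2) * (j + 4) + 1 := by ring
      omega
    simp only [e]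
    rw [a_norm _ (by norm_num)]
    push_cast at h1
    linarith

/-! ### the function for `2ⁿ + 1` -/

/-- Fermat quotient modulo `7` -/
def fq (x : ZMod 49) : ZMod 7 := ((((x ^ 6).val - 1) / 7 : ℕ) : ZMod 7)

lemma fq_mul : ∀ x y : ZMod 49, x.val % 7 ≠ 0 → y.val % 7 ≠ 0 → fq (x * y) = fq x + fq y := by
  decide +kernel

/-- a primitive character modulo `49` of the part prime to `7` -/
noncomputable def b (m : ℕ) : ℂ := ZMod.stdAddChar (fq ((ordCompl[7] m : ℕ) : ZMod 49))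

lemma b_norm (m : ℕ) : ‖b m‖ = 1 := by
  unfold b
  rw [ZMod.stdAddChar_apply, Circle.norm_coe]

lemma val_mod (m : ℕ) (h : ¬ 7 ∣ m) : (m : ZMod 49).val % 7 ≠ 0 := by
  rw [ZMod.val_natCast]; omega

lemma b_mul (m n : ℕ) (hm : m ≠ 0) (hn : n ≠ 0) : b (m * n) = b m * b n := by
  unfold b
  rw [Nat.ordCompl_mul, Nat.cast_mul,
    fq_mul _ _ (val_mod _ (Nat.not_dvd_ordCompl (by norm_num) hm))
      (val_mod _ (Nat.not_dvd_ordCompl (by norm_num) hn)), AddChar.map_add_eq_mul]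

lemma b_pow (n : ℕ) : b (2 ^ n + 1) = ZMod.stdAddChar (fq (2 ^ n + 1)) := by
  have h : ¬ 7 ∣ 2 ^ n + 1 := by
    have h3 : 2 ^ n % 7 = 1 ∨ 2 ^ n % 7 = 2 ∨ 2 ^ n % 7 = 4 := by
      induction n with
      | zero => simp
      | succ n ih => rw [pow_succ]; omega
    omega
  unfold b
  rw [Nat.factorization_eq_zero_of_not_dvd h]
  simp

lemma pow_block (T : ℕ) : ∑ j ∈ range 21, b (2 ^ (21 * T + j + 1) + 1) = 0 := by
  have h21 : (2 : ZMod 49) ^ 21 = 1 := by decide +kernel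
  have e : ∀ j : ℕ, (2 : ZMod 49) ^ (21 * T + j + 1) = 2 ^ (j + 1) := fun j => by
    rw [add_assoc, pow_add, pow_mul, h21, one_pow, one_mul]
  simp only [b_pow, e]
  rw [← Finset.sum_fiberwise (s := range 21) (g := fun j => fq (2 ^ (j + 1) + 1))]
  have hc : ∀ x : ZMod 7, ((range 21).filter fun j => fq (2 ^ (j + 1) + 1) = x).card = 3 := by
    decide +kernel
  have h1 : ∀ x : ZMod 7, ∑ j ∈ (range 21).filter (fun j => fq (2 ^ (j + 1) + 1) = x),
      ZMod.stdAddChar (fq (2 ^ (j + 1) + 1)) = 3 * ZMod.stdAddChar x := fun x => by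
    rw [Finset.sum_congr rfl (g := fun _ => ZMod.stdAddChar x)
      (fun j hj => by rw [(mem_filter.1 hj).2]), Finset.sum_const, hc]
    simp
  simp only [h1]
  rw [← Finset.mul_sum, AddChar.sum_eq_zero_of_ne_one, mul_zero]
  have := ZMod.isPrimitive_stdAddChar 7 (a := 1) (by decide)
  simpa using this

lemma pow_bound (N : ℕ) : ‖∑ j ∈ range N, b (2 ^ (j + 1) + 1)‖ ≤ 21 := by
  have := bounded_of_zero_blocks (fun j => b (2 ^ (j + 1) + 1))
    (fun j => (b_norm _).le) 21 (by norm_num) pow_block N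
  exact_mod_cast this

lemma bad_of (S : Set ℕ) (s : ℕ → ℕ) (hs : StrictMono s) (h1 : ∀ j, 1 ≤ s j)
    (hS : ∀ k, 1 ≤ k → (k ∈ S ↔ ∃ j, s j = k)) (f : ℕ → ℂ) (hf : ∀ m, 1 ≤ m → ‖f m‖ = 1)
    (hmul : ∀ m n, 1 ≤ m → 1 ≤ n → f (m * n) = f m * f n) (C : ℝ)
    (hC : ∀ N, ‖∑ j ∈ range N, f (s j)‖ ≤ C) (d n : ℕ) (hd : 1 ≤ d) :
    ‖∑ k ∈ Icc 1 n, S.indicator (fun k => f (d * k)) k‖ ≤ C := by
  obtain ⟨N, hN⟩ := reindex S s hs h1 hS (fun k => f (d * k)) n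
  rw [hN, Finset.sum_congr rfl (fun j _ => hmul d (s j) hd (h1 j)), ← Finset.mul_sum, norm_mul,
    hf d hd, one_mul]
  exact hC N

end Pool.Agent.H296Z.EDP
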