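import Mathlib

set_option autoImplicit false

namespace Pool.Agent.H296Z.EDP

/-- `S ⊆ {1,2,…}` is bad for the Erdős discrepancy problem: some unimodular sequence has
bounded partial sums over `k ∈ S`, `1 ≤ k ≤ n`, uniformly in the dilation `d ≥ 1` and in `n`. -/
def Bad (S : Set ℕ) : Prop :=
  ∃ a : ℕ → ℂ, (∀ m, 1 ≤ m → ‖a m‖ = 1) ∧ ∃ C : ℝ, ∀ d n : ℕ, 1 ≤ d →
    ‖∑ k ∈ Finset.Icc 1 n, S.indicator (fun k => a (d * k)) k‖ ≤ C

end Pool.Agent.H296Z.EDP
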