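import Pool.Agent.H296Z.QuasiDefs

set_option autoImplicit false

set_option linter.unusedSimpArgs false

namespace Pool.Agent.H296Z.Quasi

section rel

variable {G : Type} [Group G]

/-- the two defining relations of Thompson's group F -/
def Rel (a b : G) : Prop :=
  Commute (a * b⁻¹) (a⁻¹ * b * a) ∧ Commute (a * b⁻¹) (a⁻¹ * a⁻¹ * b * a * a)

def Z (a b : G) (j : ℕ) : G := (a ^ j)⁻¹ * b * a ^ j

theorem Z_succ (a b : G) (j : ℕ) : Z a b (j + 1) = a⁻¹ * Z a b j * a := by
  unfold Z; rw [pow_succ]; group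

theorem conj_of_commute {a b : G} {j : ℕ} (h : Commute (a * b⁻¹) (Z a b j)) (i : ℕ) :
    (Z a b i)⁻¹ * Z a b (i + j) * Z a b i = Z a b (i + j + 1) := by
  have h1 : b⁻¹ * Z a b j * b = Z a b (j + 1) := by
    rw [Z_succ]
    have h2 := h.eq
    calc b⁻¹ * Z a b j * b = a⁻¹ * (a * b⁻¹ * Z a b j) * b := by group
      _ = a⁻¹ * (Z a b j * (a * b⁻¹)) * b := by rw [h2]
      _ = a⁻¹ * Z a b j * a := by group
  have h3 : ∀ m, Z a b (i + m) = (a ^ i)⁻¹ * Z a b m * a ^ i := by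
    intro m
    unfold Z
    rw [add_comm i m, pow_add]; group
  rw [add_assoc, h3 (j + 1), ← h1, h3 j]
  unfold Z
  group

theorem commute_all {a b : G} (h : Rel a b) (j : ℕ) :
    Commute (a * b⁻¹) (Z a b (j + 1)) ∧ Commute (a * b⁻¹) (Z a b (j + 2)) := by
  have c1 : Commute (a * b⁻¹) (Z a b 1) := by
    have : Z a b 1 = a⁻¹ * b * a := by unfold Z; group
    rw [this]; exact h.1
  have c2 : Commute (a * b⁻¹) (Z a b 2) := by
    have : Z a b 2 = a⁻¹ * a⁻¹ * b * a * a := by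
      unfold Z; rw [pow_two, mul_inv_rev]; simp only [mul_assoc]
    rw [this]; exact h.2
  induction j with
  | zero => exact ⟨c1, c2⟩
  | succ j ih =>
    refine ⟨ih.2, ?_⟩
    have h := conj_of_commute ih.1 1
    have e1 : 1 + (j + 1) = j + 2 := by ring
    rw [e1] at h
    have e2 : j + 1 + 2 = j + 2 + 1 := by ring
    rw [e2, ← h]
    exact (c1.inv_right.mul_right ih.2).mul_right c1

/-- the infinite generating family -/
def xx (a b : G) : ℕ → G
  | 0 => a
  | n + 1 => Z a b n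

theorem xx_rel {a b : G} (h : Rel a b) {i j : ℕ} (hij : i < j) :
    xx a b j * xx a b i = xx a b i * xx a b (j + 1) := by
  obtain ⟨j, rfl⟩ : ∃ k, j = k + 1 := ⟨j - 1, by omega⟩
  cases i with
  | zero =>
    show Z a b j * a = a * Z a b (j + 1)
    rw [Z_succ]; group
  | succ i =>
    show Z a b j * Z a b i = Z a b i * Z a b (j + 1)
    obtain ⟨k, rfl⟩ : ∃ k, j = i + (k + 1) := ⟨j - i - 1, by omega⟩
    rw [← conj_of_commute (commute_all h k).1 i]
    group

section rew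

variable {x : ℕ → G} (hx : ∀ {i j : ℕ}, i < j → x j * x i = x i * x (j + 1))
include hx

theorem r1 {i j : ℕ} (h : i < j) (w : G) : x j * (x i * w) = x i * (x (j + 1) * w) := by
  rw [← mul_assoc, hx h, mul_assoc]

theorem r2 {i j : ℕ} (h : i < j) (w : G) : (x j)⁻¹ * (x i * w) = x i * ((x (j + 1))⁻¹ * w) := by
  have := hx h
  calc (x j)⁻¹ * (x i * w) = (x j)⁻¹ * (x i * x (j + 1)) * ((x (j + 1))⁻¹ * w) := by group
    _ = (x j)⁻¹ * (x j * x i) * ((x (j + 1))⁻¹ * w) := by rw [this]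
    _ = _ := by group

theorem r3 {i j : ℕ} (h : i < j) (w : G) : (x i)⁻¹ * (x j * w) = x (j + 1) * ((x i)⁻¹ * w) := by
  have := hx h
  calc (x i)⁻¹ * (x j * w) = (x i)⁻¹ * (x j * x i) * ((x i)⁻¹ * w) := by group
    _ = (x i)⁻¹ * (x i * x (j + 1)) * ((x i)⁻¹ * w) := by rw [this]
    _ = _ := by group

theorem r4 {i j : ℕ} (h : i < j) (w : G) :
    (x i)⁻¹ * ((x j)⁻¹ * w) = (x (j + 1))⁻¹ * ((x i)⁻¹ * w) := by
  have := hx h
  calc (x i)⁻¹ * ((x j)⁻¹ * w) = (x j * x i)⁻¹ * w := by group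
    _ = (x i * x (j + 1))⁻¹ * w := by rw [this]
    _ = _ := by group

theorem rel_UV : Rel (x 1 * (x 2)⁻¹) (x 2 * x 2 * (x 3)⁻¹ * (x 2)⁻¹) := by
  have key : ∀ p q : G, (∀ w, p * q * p⁻¹ * q⁻¹ * w = w) → Commute p q := by
    intro p q h
    have := h (q * p)
    calc p * q = p * q * p⁻¹ * q⁻¹ * (q * p) := by group
      _ = q * p := this
  constructor
  · apply key
    intro w
    simp only [mul_inv_rev, inv_inv, mul_assoc, r1 hx, r2 hx, r3 hx, r4 hx, Nat.reduceLT,
      Nat.reduceAdd, mul_inv_cancel_left, inv_mul_cancel_left, Nat.lt_add_one, Nat.one_lt_ofNat]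
  · apply key
    intro w
    simp only [mul_inv_rev, inv_inv, mul_assoc, r1 hx, r2 hx, r3 hx, r4 hx, Nat.reduceLT,
      Nat.reduceAdd, mul_inv_cancel_left, inv_mul_cancel_left, Nat.lt_add_one, Nat.one_lt_ofNat]

theorem conj_UV (w : G) :
    ((x 0)⁻¹ * x 1 * x 2)⁻¹ * ((x 2 * x 2 * (x 3)⁻¹ * (x 2)⁻¹) *
      ((x 1 * (x 2)⁻¹)⁻¹ * (x 2 * x 2 * (x 3)⁻¹ * (x 2)⁻¹) * (x 1 * (x 2)⁻¹))⁻¹) *
      ((x 0)⁻¹ * x 1 * x 2) * (x 1 * (x 2)⁻¹)⁻¹ * w = w := by
  simp only [mul_inv_rev, inv_inv, mul_assoc, r1 hx, r2 hx, r3 hx, r4 hx, Nat.reduceLT,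
    Nat.reduceAdd, mul_inv_cancel_left, inv_mul_cancel_left, Nat.lt_add_one, Nat.one_lt_ofNat,
    Nat.ofNat_pos, Nat.zero_lt_one]

end rew

theorem Rel.map {H : Type} [Group H] (f : G →* H) {a b : G} (h : Rel a b) : Rel (f a) (f b) := by
  have h1 := h.1.map f
  have h2 := h.2.map f
  simp only [map_mul, map_inv] at h1 h2
  exact ⟨h1, h2⟩

theorem Rel.of_map {H : Type} [Group H] (f : G →* H) (hf : Function.Injective f) {a b : G}
    (h : Rel (f a) (f b)) : Rel a b := by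
  constructor
  · apply hf
    simpa only [map_mul, map_inv] using h.1.eq
  · apply hf
    simpa only [map_mul, map_inv] using h.2.eq

end rel

/-- the quasivariety defined by the quasi-identity: the relations of F imply commutation -/
def NoF : GroupClass := fun G _ => ∀ a b : G, Rel a b → Commute a b

theorem NoF.of_injective {G H : Type} [Group G] [Group H] (f : G →* H)
    (hf : Function.Injective f) (h : NoF H) : NoF G := by
  intro a b hab
  apply hf
  simpa only [map_mul] using (h _ _ (hab.map f)).eq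

theorem commute_mk_iff {I : Type} (U : Ultrafilter I) (G : I → Type) [∀ i, Group (G i)]
    (a b : ∀ i, G i) :
    Commute (QuotientGroup.mk a : Ultraprod U G) (QuotientGroup.mk b) ↔
      ∀ᶠ i in (U : Filter I), Commute (a i) (b i) := by
  unfold Commute SemiconjBy
  rw [← QuotientGroup.mk_mul, ← QuotientGroup.mk_mul, QuotientGroup.eq]
  show (∀ᶠ i in (U : Filter I), ((a * b)⁻¹ * (b * a)) i = 1) ↔ _
  refine Filter.eventually_congr (Filter.Eventually.of_forall fun i => ?_)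
  rw [Pi.mul_apply, Pi.inv_apply, inv_mul_eq_one]
  rfl

theorem noF_quasi : IsQuasivariety NoF where
  trivial := fun _ _ _ => Subsingleton.elim _ _
  iso := fun _ _ _ _ e h => NoF.of_injective e.symm.toMonoidHom e.symm.injective h
  sub := fun _ _ H h => NoF.of_injective H.subtype H.subtype_injective h
  prod := fun _ G _ h a b hab => funext fun i =>
    (h i _ _ (hab.map (Pi.evalMonoidHom G i))).eq
  ultra := by
    intro I U G _ h a b hab
    obtain ⟨a, rfl⟩ := QuotientGroup.mk_surjective a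
    obtain ⟨b, rfl⟩ := QuotientGroup.mk_surjective b
    obtain ⟨h1, h2⟩ := hab
    simp only [← QuotientGroup.mk_inv, ← QuotientGroup.mk_mul, commute_mk_iff] at h1 h2 ⊢
    exact (h1.and h2).mono fun i hi => h i _ _ hi

theorem noF_int : NoF (Multiplicative ℤ) := fun a b _ => mul_comm a b

theorem noF_ext : ExtensionClosed NoF := by
  intro G _ N _ hN hQ a b hab
  have hx : ∀ {i j : ℕ}, i < j → xx a b j * xx a b i = xx a b i * xx a b (j + 1) :=
    fun h => xx_rel hab h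
  have hq : Commute (QuotientGroup.mk' N a) (QuotientGroup.mk' N b) := hQ _ _ (hab.map _)
  have hz : ∀ n, QuotientGroup.mk' N (xx a b (n + 1)) = QuotientGroup.mk' N b := by
    intro n
    show QuotientGroup.mk' N (Z a b n) = _
    unfold Z
    rw [map_mul, map_mul, map_inv, map_pow, mul_assoc, ← (hq.pow_left n).eq, inv_mul_cancel_left]
  have hU : xx a b 1 * (xx a b 2)⁻¹ ∈ N := by
    rw [← QuotientGroup.ker_mk' N, MonoidHom.mem_ker, map_mul, map_inv, hz 0, hz 1, mul_inv_cancel]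
  have hV : xx a b 2 * xx a b 2 * (xx a b 3)⁻¹ * (xx a b 2)⁻¹ ∈ N := by
    rw [← QuotientGroup.ker_mk' N, MonoidHom.mem_ker]
    simp only [map_mul, map_inv]
    rw [hz 1, hz 2]
    group
  have hrel : Rel (⟨_, hU⟩ : N) ⟨_, hV⟩ :=
    Rel.of_map N.subtype N.subtype_injective (rel_UV hx)
  have hc : Commute (xx a b 1 * (xx a b 2)⁻¹) (xx a b 2 * xx a b 2 * (xx a b 3)⁻¹ * (xx a b 2)⁻¹) :=
    (hN _ _ hrel).map N.subtype
  have h1 := conj_UV hx 1
  rw [mul_assoc (xx a b 1 * (xx a b 2)⁻¹)⁻¹, ← hc.eq, inv_mul_cancel_left, mul_inv_cancel,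
    mul_one, mul_one, inv_mul_cancel, one_mul, inv_eq_one, mul_inv_eq_one] at h1
  have h2 : b = a⁻¹ * b * a := by
    have e1 : xx a b 1 = b := by show Z a b 0 = b; unfold Z; group
    have e2 : xx a b 2 = a⁻¹ * b * a := by show Z a b 1 = _; unfold Z; group
    rw [e1, e2] at h1
    exact h1
  show a * b = b * a
  calc a * b = a * (a⁻¹ * b * a) := by rw [← h2]
    _ = b * a := by group

end Pool.Agent.H296Z.Quasi
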