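import Mathlib

set_option autoImplicit false

namespace Pool.Agent.H296Z.Quasi

/-- A class of groups. -/
abbrev GroupClass : Type 1 := ∀ (G : Type) [Group G], Prop

/-- The elements of the direct product that are trivial in almost all coordinates with respect to
the ultrafilter `U`. -/
def nullSub {I : Type} (U : Ultrafilter I) (G : I → Type) [∀ i, Group (G i)] :
    Subgroup (∀ i, G i) where
  carrier := {g | ∀ᶠ i in (U : Filter I), g i = 1}
  one_mem' := Filter.Eventually.of_forall fun _ => rfl
  mul_mem' := fun {a b} ha hb => (ha.and hb).mono fun i h => by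
    rw [Pi.mul_apply, h.1, h.2, mul_one]
  inv_mem' := fun {a} ha => ha.mono fun i h => by rw [Pi.inv_apply, h, inv_one]

instance nullSub_normal {I : Type} (U : Ultrafilter I) (G : I → Type) [∀ i, Group (G i)] :
    (nullSub U G).Normal where
  conj_mem := fun n hn g => hn.mono fun i h => by
    rw [Pi.mul_apply, Pi.mul_apply, Pi.inv_apply, h, mul_one, mul_inv_cancel]

/-- The ultraproduct of the groups `G i` along the ultrafilter `U`. -/
abbrev Ultraprod {I : Type} (U : Ultrafilter I) (G : I → Type) [∀ i, Group (G i)] : Type :=
  (∀ i, G i) ⧸ nullSub U G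

/-- A quasivariety: contains the trivial group and is closed under isomorphism, subgroups,
arbitrary direct products and ultraproducts. -/
structure IsQuasivariety (C : GroupClass) : Prop where
  trivial : C Unit
  iso : ∀ (G H : Type) [Group G] [Group H], (G ≃* H) → C G → C H
  sub : ∀ (G : Type) [Group G] (H : Subgroup G), C G → C H
  prod : ∀ (I : Type) (G : I → Type) [∀ i, Group (G i)], (∀ i, C (G i)) → C (∀ i, G i)
  ultra : ∀ (I : Type) (U : Ultrafilter I) (G : I → Type) [∀ i, Group (G i)],
    (∀ i, C (G i)) → C (Ultraprod U G)

/-- The class is closed under extensions. -/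
def ExtensionClosed (C : GroupClass) : Prop :=
  ∀ (G : Type) [Group G] (N : Subgroup G) [N.Normal], C N → C (G ⧸ N) → C G

/-- Membership in the smallest extension closed quasivariety containing the infinite cyclic group:
the intersection of all such quasivarieties. -/
def InBrodskii (G : Type) [Group G] : Prop :=
  ∀ C : GroupClass, IsQuasivariety C → ExtensionClosed C → C (Multiplicative ℤ) → C G

/-- Every nontrivial finitely generated subgroup maps onto the infinite cyclic group. -/
def LocallyIndicable (G : Type) [Group G] : Prop :=
  ∀ H : Subgroup G, H.FG → H ≠ ⊥ → ∃ φ : H →* Multiplicative ℤ, Function.Surjective φ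

end Pool.Agent.H296Z.Quasi
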