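import Pool.Agent.H296Z.QuasiAlg

set_option autoImplicit false

set_option linter.unusedSimpArgs false

namespace Pool.Agent.H296Z.Quasi

open Filter Topology Set

theorem tendsto_right (e : ℝ ≃o ℝ) (p : ℝ) : Tendsto e (𝓝[≥] p) (𝓝[≥] (e p)) :=
  (e.continuous.continuousWithinAt (s := Ici p)).tendsto_nhdsWithin
    fun _ hx => e.monotone hx

/-- `e` has slope `2 ^ k` to the right of `p` -/
def Slope (e : ℝ ≃o ℝ) (p : ℝ) (k : ℤ) : Prop :=
  ∀ᶠ t in 𝓝[≥] p, e t = e p + (2 : ℝ) ^ k * (t - p)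

theorem Slope.mul {e f : ℝ ≃o ℝ} {p : ℝ} {k l : ℤ} (he : Slope e (f p) k) (hf : Slope f p l) :
    Slope (e * f) p (k + l) := by
  filter_upwards [(tendsto_right f p).eventually he, hf] with t h1 h2
  show e (f t) = e (f p) + _
  rw [h1, h2, zpow_add₀ (by norm_num)]
  ring

theorem Slope.inv {e : ℝ ≃o ℝ} {p : ℝ} {k : ℤ} (he : Slope e (e⁻¹ p) k) : Slope e⁻¹ p (-k) := by
  filter_upwards [(tendsto_right e⁻¹ p).eventually he] with t h1
  have a1 : e (e⁻¹ t) = t := e.apply_symm_apply t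
  have a2 : e (e⁻¹ p) = p := e.apply_symm_apply p
  rw [a1, a2] at h1
  have h2 : (2 : ℝ) ^ k ≠ 0 := zpow_ne_zero _ (by norm_num)
  rw [zpow_neg]
  field_simp
  linarith

theorem Slope.one (p : ℝ) : Slope 1 p 0 :=
  Eventually.of_forall fun t => by
    show t = p + (2 : ℝ) ^ (0 : ℤ) * (t - p)
    simp

theorem Slope.unique {e : ℝ ≃o ℝ} {p : ℝ} {k l : ℤ} (h1 : Slope e p k) (h2 : Slope e p l) :
    k = l := by
  have h3 : ∀ᶠ t in 𝓝[>] p, (2 : ℝ) ^ k = (2 : ℝ) ^ l := by
    have hle : 𝓝[>] p ≤ 𝓝[≥] p := nhdsWithin_mono _ Ioi_subset_Ici_self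
    filter_upwards [h1.filter_mono hle, h2.filter_mono hle, self_mem_nhdsWithin] with t a b c
    have : t - p ≠ 0 := sub_ne_zero.2 (ne_of_gt c)
    exact mul_right_cancel₀ this (by linarith)
  exact zpow_right_injective₀ (by norm_num) (by norm_num) h3.exists.choose_spec

/-- increasing homeomorphisms of the line, trivial on the negative axis, that are affine with
slope a power of two to the right of each point -/
def PL : Subgroup (ℝ ≃o ℝ) where
  carrier := {e | (∀ t ≤ 0, e t = t) ∧ ∀ p, ∃ k, Slope e p k}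
  one_mem' := ⟨fun _ _ => rfl, fun p => ⟨0, Slope.one p⟩⟩
  mul_mem' := by
    rintro e f ⟨a1, a2⟩ ⟨b1, b2⟩
    refine ⟨fun t ht => ?_, fun p => ?_⟩
    · show e (f t) = t
      rw [b1 t ht, a1 t ht]
    · obtain ⟨k, hk⟩ := a2 (f p)
      obtain ⟨l, hl⟩ := b2 p
      exact ⟨_, hk.mul hl⟩
  inv_mem' := by
    rintro e ⟨a1, a2⟩
    refine ⟨fun t ht => ?_, fun p => ?_⟩
    · show e.symm t = t
      rw [e.symm_apply_eq, a1 t ht]
    · obtain ⟨k, hk⟩ := a2 (e⁻¹ p)
      exact ⟨_, hk.inv⟩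

theorem exists_surj {H : Type} [Group H] (ψ : H →* Multiplicative ℤ) (h : ∃ x, ψ x ≠ 1) :
    ∃ φ : H →* Multiplicative ℤ, Function.Surjective φ := by
  obtain ⟨x, hx⟩ := h
  have hinf : Infinite ψ.range := by
    have h1 : ¬ IsOfFinOrder (⟨ψ x, x, rfl⟩ : ψ.range) := by
      intro h2
      have h3 : IsOfFinOrder (ψ x) := ψ.range.subtype.isOfFinOrder h2
      exact hx (h3.eq_one')
    exact Infinite.of_injective _ (injective_pow_iff_not_isOfFinOrder.2 h1)
  have e : ψ.range ≃* Multiplicative ℤ := (intCyclicMulEquiv (G := ψ.range)).symm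
  exact ⟨e.toMonoidHom.comp ψ.rangeRestrict, e.surjective.comp ψ.rangeRestrict_surjective⟩

theorem PL_li : LocallyIndicable PL := by
  intro H hH hne
  obtain ⟨S, hS⟩ := hH
  set M : Set ℝ := {t | ∃ s ∈ S, (s : ℝ ≃o ℝ) t ≠ t} with hM
  have hfix : ∀ t, t ∉ M → ∀ g ∈ H, (g : ℝ ≃o ℝ) t = t := by
    intro t ht g hg
    rw [← hS] at hg
    induction hg using Subgroup.closure_induction with
    | mem s hs =>
      by_contra h
      exact ht ⟨s, hs, h⟩
    | one => rfl
    | mul x y _ _ hx hy =>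
      show (x : ℝ ≃o ℝ) ((y : ℝ ≃o ℝ) t) = t
      rw [hy, hx]
    | inv x _ hx =>
      show (x : ℝ ≃o ℝ).symm t = t
      rw [OrderIso.symm_apply_eq, hx]
  have hMne : M.Nonempty := by
    by_contra h
    apply hne
    rw [eq_bot_iff]
    intro g hg
    rw [Subgroup.mem_bot]
    refine Subtype.ext (RelIso.ext fun t => ?_)
    exact hfix t (fun ht => h ⟨t, ht⟩) g hg
  have hMb : BddBelow M := by
    refine ⟨0, fun t ht => ?_⟩
    obtain ⟨s, _, hs⟩ := ht
    by_contra h
    exact hs (s.2.1 t (not_le.1 h).le)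
  set p := sInf M with hp
  have hlt : ∀ t < p, t ∉ M := fun t ht h => absurd (csInf_le hMb h) (not_le.2 ht)
  have hpfix : ∀ g ∈ H, (g : ℝ ≃o ℝ) p = p := by
    intro g hg
    have h1 : IsClosed {t : ℝ | (g : ℝ ≃o ℝ) t = t} :=
      isClosed_eq (g : ℝ ≃o ℝ).continuous continuous_id
    have h2 : Iio p ⊆ {t : ℝ | (g : ℝ ≃o ℝ) t = t} := fun t ht => hfix t (hlt t ht) g hg
    have h3 := closure_minimal h2 h1
    rw [closure_Iio] at h3
    exact h3 (le_refl p)
  choose k hk using fun g : H => (g : PL).2.2 p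
  let ψ : H →* Multiplicative ℤ := MonoidHom.mk' (fun g => Multiplicative.ofAdd (k g)) (by
    intro g h
    rw [← ofAdd_add]
    congr 1
    refine (hk (g * h)).unique ?_
    refine Slope.mul ?_ (hk h)
    rw [hpfix _ h.2]
    exact hk g)
  refine exists_surj ψ ?_
  by_contra hcon
  push Not at hcon
  have h0 : ∀ g : H, k g = 0 := fun g => by
    have := hcon g
    exact ofAdd_eq_one.1 this
  have h1 : ∀ s ∈ S, ∀ᶠ t in 𝓝[≥] p, (s : ℝ ≃o ℝ) t = t := by
    intro s hs
    have hsH : s ∈ H := by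
      rw [← hS]
      exact Subgroup.subset_closure hs
    have h2 := hk ⟨s, hsH⟩
    rw [h0] at h2
    filter_upwards [h2] with t ht
    have h3 : (s : ℝ ≃o ℝ) p = p := hpfix s hsH
    simp only [h3] at ht
    rw [ht]
    simp
  have h2 : ∀ᶠ t in 𝓝[≥] p, t ∉ M := by
    filter_upwards [(Finset.eventually_all S).2 h1] with t ht
    rintro ⟨s, hs, h⟩
    exact h (ht s hs)
  obtain ⟨u, hu, hsub⟩ := (mem_nhdsGE_iff_exists_Ico_subset).1 h2
  obtain ⟨t, ht, htu⟩ := exists_lt_of_csInf_lt hMne hu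
  exact hsub ⟨csInf_le hMb ht, htu⟩ ht

/-- the generators of F acting on the line -/
noncomputable def gen (n : ℝ) : ℝ ≃o ℝ where
  toFun t := max (t - 1) (min t ((t + n) / 2))
  invFun s := min (s + 1) (max s (2 * s - n))
  left_inv t := by
    simp only [max_def, min_def]
    split_ifs <;> linarith
  right_inv t := by
    simp only [max_def, min_def]
    split_ifs <;> linarith
  map_rel_iff' := by
    intro a b
    simp only [Equiv.coe_fn_mk, max_def, min_def]
    split_ifs <;> constructor <;> intro <;> linarith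

theorem gen_apply (n t : ℝ) : gen n t = max (t - 1) (min t ((t + n) / 2)) := rfl

theorem gen_mem (n : ℝ) (hn : 0 ≤ n) : gen n ∈ PL := by
  refine ⟨fun t ht => ?_, fun p => ?_⟩
  · simp only [gen_apply, max_def, min_def]
    split_ifs <;> linarith
  · rcases lt_or_ge p n with h | h
    · refine ⟨0, ?_⟩
      filter_upwards [Ico_mem_nhdsGE h] with t ht
      obtain ⟨h1, h2⟩ := ht
      simp only [gen_apply, max_def, min_def, zpow_zero]
      split_ifs <;> linarith
    rcases lt_or_ge p (n + 2) with h' | h'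
    · refine ⟨-1, ?_⟩
      filter_upwards [Ico_mem_nhdsGE h'] with t ht
      obtain ⟨h1, h2⟩ := ht
      simp only [gen_apply, max_def, min_def, zpow_neg, zpow_one]
      split_ifs <;> linarith
    · refine ⟨0, ?_⟩
      filter_upwards [self_mem_nhdsWithin] with t ht
      have h1 : p ≤ t := ht
      simp only [gen_apply, max_def, min_def, zpow_zero]
      split_ifs <;> linarith

theorem gen_rel (i j : ℝ) (h : i + 1 ≤ j) : gen j * gen i = gen i * gen (j + 1) := by
  refine RelIso.ext fun t => ?_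
  show gen j (gen i t) = gen i (gen (j + 1) t)
  simp only [gen_apply, max_def, min_def]
  split_ifs <;> linarith

theorem PL_not : ¬ NoF PL := by
  intro h
  have hx : ∀ {i j : ℕ}, i < j → gen j * gen i = gen i * gen ((j + 1 : ℕ) : ℝ) := by
    intro i j hij
    rw [Nat.cast_succ]
    exact gen_rel _ _ (by exact_mod_cast hij)
  let x : ℕ → PL := fun n => ⟨gen n, gen_mem n (Nat.cast_nonneg n)⟩
  have hx' : ∀ {i j : ℕ}, i < j → x j * x i = x i * x (j + 1) := fun hij => Subtype.ext (hx hij)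
  have hrel : Rel (x 0) (x 1) := by
    have key : ∀ p q : PL, (∀ w, p * q * p⁻¹ * q⁻¹ * w = w) → Commute p q := by
      intro p q h
      have := h (q * p)
      calc p * q = p * q * p⁻¹ * q⁻¹ * (q * p) := by group
        _ = q * p := this
    constructor
    · apply key
      intro w
      simp only [mul_inv_rev, inv_inv, mul_assoc, r1 hx', r2 hx', r3 hx', r4 hx', Nat.reduceLT,
        Nat.reduceAdd, mul_inv_cancel_left, inv_mul_cancel_left, Nat.lt_add_one, Nat.one_lt_ofNat,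
        Nat.ofNat_pos, Nat.zero_lt_one]
    · apply key
      intro w
      simp only [mul_inv_rev, inv_inv, mul_assoc, r1 hx', r2 hx', r3 hx', r4 hx', Nat.reduceLT,
        Nat.reduceAdd, mul_inv_cancel_left, inv_mul_cancel_left, Nat.lt_add_one, Nat.one_lt_ofNat,
        Nat.ofNat_pos, Nat.zero_lt_one]
  have h1 := (h _ _ hrel).eq
  rw [← mul_left_cancel_iff (a := (x 0)⁻¹), inv_mul_cancel_left, hx' (by norm_num : 0 < 1),
    inv_mul_cancel_left] at h1
  have h2 : gen ((1 : ℕ) : ℝ) 2 = gen ((1 + 1 : ℕ) : ℝ) 2 :=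
    congrArg (fun g : PL => (g : ℝ ≃o ℝ) 2) h1
  simp only [gen_apply] at h2
  norm_num at h2

theorem main : ∃ (G : Type) (_ : Group G), LocallyIndicable G ∧ ¬ InBrodskii G :=
  ⟨PL, inferInstance, PL_li, fun h => PL_not (h NoF noF_quasi noF_ext noF_int)⟩

end Pool.Agent.H296Z.Quasi
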