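import Mathlib

set_option autoImplicit false

namespace Pool.Agent.H296Z.Totient

open Finset Filter Topology

theorem totient_real (n : ℕ) :
    (Nat.totient n : ℝ) = n * ∏ p ∈ n.primeFactors, (1 - (p : ℝ)⁻¹) := by
  have h := Nat.totient_eq_mul_prod_factors n
  have h2 := congrArg (fun q : ℚ => (q : ℝ)) h
  simpa using h2

theorem one_sub_sum_le (T : Finset ℕ) (f : ℕ → ℝ) (h0 : ∀ i ∈ T, 0 ≤ f i) (h1 : ∀ i ∈ T, f i ≤ 1) :
    1 - ∑ i ∈ T, f i ≤ ∏ i ∈ T, (1 - f i) := by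
  induction T using Finset.induction_on with
  | empty => simp
  | insert a T ha ih =>
    rw [Finset.sum_insert ha, Finset.prod_insert ha]
    have ih' := ih (fun i hi => h0 i (mem_insert_of_mem hi)) (fun i hi => h1 i (mem_insert_of_mem hi))
    have ha0 := h0 a (mem_insert_self _ _)
    have ha1 := h1 a (mem_insert_self _ _)
    have hs : 0 ≤ ∑ i ∈ T, f i := Finset.sum_nonneg fun i hi => h0 i (mem_insert_of_mem hi)
    nlinarith [mul_le_mul_of_nonneg_left ih' (sub_nonneg.2 ha1)]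

theorem card_le_of_interval (T : Finset ℕ) (u L : ℝ) (hL : 0 ≤ L)
    (h : ∀ k ∈ T, u < k ∧ (k : ℝ) < u + L) : (T.card : ℝ) ≤ L + 1 := by
  rcases T.eq_empty_or_nonempty with rfl | hne
  · simp; linarith
  · set m := T.min' hne with hm
    have hmT : m ∈ T := T.min'_mem hne
    have hsub : T ⊆ Finset.Icc m (m + ⌊L⌋₊) := by
      intro k hk
      have h1 : m ≤ k := T.min'_le k hk
      rw [Finset.mem_Icc]
      refine ⟨h1, ?_⟩
      have h2 : ((k - m : ℕ) : ℝ) ≤ L := by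
        rw [Nat.cast_sub h1]
        linarith [(h k hk).2, (h m hmT).1]
      have h3 := Nat.le_floor h2
      omega
    have h4 := Finset.card_le_card hsub
    rw [Nat.card_Icc] at h4
    have h5 : T.card ≤ ⌊L⌋₊ + 1 := by omega
    have h6 : (T.card : ℝ) ≤ (⌊L⌋₊ : ℝ) + 1 := by exact_mod_cast h5
    linarith [Nat.floor_le hL]

theorem card_le_of_class (T : Finset ℕ) (Q r : ℕ) (hQ : 0 < Q) (u L : ℝ) (hL : 0 ≤ L)
    (hr : ∀ k ∈ T, k % Q = r) (h : ∀ k ∈ T, u < k ∧ (k : ℝ) < u + L) :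
    (T.card : ℝ) ≤ L / Q + 1 := by
  have hQ' : (0 : ℝ) < Q := by exact_mod_cast hQ
  have hinj : Set.InjOn (fun k => k / Q) (T : Set ℕ) := by
    intro a ha b hb hab
    have h1 := Nat.div_add_mod a Q
    have h2 := Nat.div_add_mod b Q
    rw [hr a ha] at h1
    rw [hr b hb] at h2
    simp only at hab
    rw [← h1, ← h2, hab]
  rw [← Finset.card_image_of_injOn hinj]
  refine card_le_of_interval _ ((u - r) / Q) (L / Q) (by positivity) ?_
  intro j hj
  obtain ⟨k, hk, rfl⟩ := Finset.mem_image.1 hj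
  have h1 := Nat.div_add_mod k Q
  rw [hr k hk] at h1
  have h2 : (Q : ℝ) * ((k / Q : ℕ) : ℝ) + r = k := by exact_mod_cast h1
  obtain ⟨h3, h4⟩ := h k hk
  constructor
  · rw [div_lt_iff₀ hQ']
    linarith
  · rw [← add_div, lt_div_iff₀ hQ']
    linarith

/-- the part of `φ(n)/n` coming from the primes up to `P` -/
noncomputable def small (P n : ℕ) : ℝ :=
  ∏ p ∈ (range (P + 1)).filter (fun p => p.Prime ∧ p ∣ n), (1 - (p : ℝ)⁻¹)

/-- the sum of the reciprocals of the prime factors above `P` -/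
noncomputable def tail (P n : ℕ) : ℝ := ∑ p ∈ n.primeFactors.filter (fun p => P < p), (p : ℝ)⁻¹

theorem inv_le_one_nat (p : ℕ) : (p : ℝ)⁻¹ ≤ 1 := by
  rcases Nat.eq_zero_or_pos p with rfl | hp
  · simp
  · exact inv_le_one_of_one_le₀ (by exact_mod_cast hp)

theorem small_nonneg (P n : ℕ) : 0 ≤ small P n :=
  Finset.prod_nonneg fun p _ => sub_nonneg.2 (inv_le_one_nat p)

theorem small_le_one (P n : ℕ) : small P n ≤ 1 :=
  Finset.prod_le_one (fun p _ => sub_nonneg.2 (inv_le_one_nat p))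
    (fun p _ => by have : (0 : ℝ) ≤ (p : ℝ)⁻¹ := by positivity
                   linarith)

theorem small_mod (P n : ℕ) : small P (n % primorial P) = small P n := by
  unfold small
  refine Finset.prod_congr ?_ fun _ _ => rfl
  refine Finset.filter_congr fun p hp => ?_
  refine and_congr_right fun hpp => ?_
  have hd : p ∣ primorial P := by
    unfold primorial
    exact Finset.dvd_prod_of_mem _ (Finset.mem_filter.2 ⟨hp, hpp⟩)
  exact Nat.dvd_mod_iff hd

theorem totient_split (P n : ℕ) (hn : n ≠ 0) :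
    (Nat.totient n : ℝ) =
      n * small P n * ∏ p ∈ n.primeFactors.filter (fun p => P < p), (1 - (p : ℝ)⁻¹) := by
  rw [totient_real, mul_assoc, ← Finset.prod_filter_mul_prod_filter_not n.primeFactors
    (fun p => p ≤ P)]
  congr 2
  · unfold small
    refine Finset.prod_congr ?_ fun _ _ => rfl
    ext p
    simp only [mem_filter, Nat.mem_primeFactors, mem_range, Nat.lt_succ_iff]
    tauto
  · refine Finset.prod_congr ?_ fun _ _ => rfl
    refine Finset.filter_congr fun p _ => by simp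

theorem totient_upper (P n : ℕ) (hn : n ≠ 0) : (Nat.totient n : ℝ) ≤ n * small P n := by
  rw [totient_split P n hn]
  refine mul_le_of_le_one_right (mul_nonneg (Nat.cast_nonneg _) (small_nonneg P n)) ?_
  exact Finset.prod_le_one (fun p _ => sub_nonneg.2 (inv_le_one_nat p))
    (fun p _ => by have : (0 : ℝ) ≤ (p : ℝ)⁻¹ := by positivity
                   linarith)

theorem tail_nonneg (P n : ℕ) : 0 ≤ tail P n := Finset.sum_nonneg fun p _ => by positivity

theorem totient_lower (P n : ℕ) (hn : n ≠ 0) :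
    n * small P n - n * tail P n ≤ (Nat.totient n : ℝ) := by
  rw [totient_split P n hn]
  have h1 := one_sub_sum_le (n.primeFactors.filter (fun p => P < p)) (fun p => (p : ℝ)⁻¹)
    (fun p _ => by positivity) (fun p _ => inv_le_one_nat p)
  have h2 := mul_le_mul_of_nonneg_left h1 (mul_nonneg (Nat.cast_nonneg n) (small_nonneg P n))
  have h3 : (n : ℝ) * small P n * tail P n ≤ n * tail P n :=
    mul_le_mul_of_nonneg_right (mul_le_of_le_one_right (Nat.cast_nonneg n) (small_le_one P n))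
      (tail_nonneg P n)
  unfold tail at h3 ⊢
  nlinarith

theorem sum_tail_le (P N : ℕ) (hP : P ≠ 0) : ∑ n ∈ Ioc 0 N, tail P n ≤ N / P := by
  rcases lt_or_ge N P with hNP | hNP
  · have : ∀ n ∈ Ioc 0 N, tail P n = 0 := by
      intro n hn
      unfold tail
      refine Finset.sum_eq_zero fun p hp => ?_
      exfalso
      rw [mem_filter] at hp
      have := Nat.le_of_mem_primeFactors hp.1
      rw [mem_Ioc] at hn
      omega
    rw [Finset.sum_eq_zero this]
    positivity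
  have h1 : ∀ n ∈ Ioc 0 N, tail P n ≤ ∑ p ∈ Ioc P N, if p ∣ n then (p : ℝ)⁻¹ else 0 := by
    intro n hn
    rw [← Finset.sum_filter]
    unfold tail
    refine Finset.sum_le_sum_of_subset_of_nonneg ?_ fun p _ _ => by positivity
    intro p hp
    rw [mem_filter] at hp ⊢
    have := Nat.le_of_mem_primeFactors hp.1
    rw [mem_Ioc] at hn ⊢
    exact ⟨⟨hp.2, by omega⟩, Nat.dvd_of_mem_primeFactors hp.1⟩
  refine (Finset.sum_le_sum h1).trans ?_
  rw [Finset.sum_comm]
  have h2 : ∀ p ∈ Ioc P N, (∑ n ∈ Ioc 0 N, if p ∣ n then (p : ℝ)⁻¹ else 0) ≤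
      N * ((p : ℝ) ^ 2)⁻¹ := by
    intro p hp
    rw [← Finset.sum_filter, Finset.sum_const, Nat.Ioc_filter_dvd_card_eq_div, nsmul_eq_mul]
    have hp0 : (0 : ℝ) < p := by
      rw [mem_Ioc] at hp
      exact_mod_cast (by omega : 0 < p)
    have h3 : ((N / p : ℕ) : ℝ) ≤ N / p := Nat.cast_div_le
    calc ((N / p : ℕ) : ℝ) * (p : ℝ)⁻¹ ≤ N / p * (p : ℝ)⁻¹ :=
          mul_le_mul_of_nonneg_right h3 (by positivity)
      _ = _ := by field_simp
  refine (Finset.sum_le_sum h2).trans ?_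
  rw [← Finset.mul_sum, div_eq_mul_inv]
  refine mul_le_mul_of_nonneg_left ?_ (Nat.cast_nonneg _)
  have h4 := sum_Ioc_inv_sq_le_sub (α := ℝ) hP hNP
  have h5 : (0 : ℝ) ≤ (N : ℝ)⁻¹ := by positivity
  linarith

/-- the main count -/
theorem count_le (g x : ℕ) (hg : 1 ≤ g) (hx : g * 4 ^ (g ^ 2) ≤ x) :
    ((Set.ncard {n : ℕ | (x : ℝ) < (n : ℝ) + (Nat.totient n : ℝ) ∧
      (n : ℝ) + (Nat.totient n : ℝ) < (x : ℝ) + x / g} : ℕ) : ℝ) ≤ 6 * (x / g) := by
  classical
  set P := g ^ 2 with hP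
  set Q := primorial P with hQ
  set F : ℝ := x / g with hF
  have hg' : (1 : ℝ) ≤ g := by exact_mod_cast hg
  have hg0 : (0 : ℝ) < g := by linarith
  have hF0 : 0 ≤ F := by positivity
  have hFx : F ≤ x := div_le_self (Nat.cast_nonneg _) hg'
  have hQ0 : 0 < Q := primorial_pos P
  have hQF : (Q : ℝ) ≤ F := by
    rw [hF, le_div_iff₀ hg0]
    have h1 : Q * g ≤ x := by
      have := primorial_le_four_pow P
      calc Q * g ≤ 4 ^ P * g := Nat.mul_le_mul_right _ this
        _ = g * 4 ^ P := mul_comm _ _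
        _ ≤ x := hx
    exact_mod_cast h1
  set S := (Ioc 0 (2 * x)).filter (fun n : ℕ => (x : ℝ) < (n : ℝ) + (Nat.totient n : ℝ) ∧
      (n : ℝ) + (Nat.totient n : ℝ) < (x : ℝ) + F) with hS
  have hset : {n : ℕ | (x : ℝ) < (n : ℝ) + (Nat.totient n : ℝ) ∧
      (n : ℝ) + (Nat.totient n : ℝ) < (x : ℝ) + F} = (S : Set ℕ) := by
    ext n
    simp only [hS, Set.mem_ofPred_eq, coe_filter, mem_Ioc]
    constructor
    · rintro ⟨h1, h2⟩
      refine ⟨⟨?_, ?_⟩, h1, h2⟩
      · rcases Nat.eq_zero_or_pos n with rfl | h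
        · exfalso
          simp at h1
          linarith [(Nat.cast_nonneg x : (0 : ℝ) ≤ x)]
        · exact h
      · have h3 : (0 : ℝ) ≤ (Nat.totient n : ℝ) := Nat.cast_nonneg _
        have h4 : (n : ℝ) ≤ ((2 * x : ℕ) : ℝ) := by push_cast; linarith
        exact_mod_cast h4
    · exact fun h => h.2
  rw [hset, Set.ncard_coe_finset]
  have hsplit := Finset.card_filter_add_card_filter_not (s := S) (fun n => tail P n ≤ (g : ℝ)⁻¹)
  -- bad `n`
  have hbad : ((S.filter (fun n => ¬ tail P n ≤ (g : ℝ)⁻¹)).card : ℝ) ≤ 2 * F := by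
    have h1 : ((S.filter (fun n => ¬ tail P n ≤ (g : ℝ)⁻¹)).card : ℝ) * (g : ℝ)⁻¹ ≤
        ∑ n ∈ S.filter (fun n => ¬ tail P n ≤ (g : ℝ)⁻¹), tail P n := by
      rw [← nsmul_eq_mul]
      exact Finset.card_nsmul_le_sum _ _ _ fun n hn => (not_le.1 (mem_filter.1 hn).2).le
    have h2 : ∑ n ∈ S.filter (fun n => ¬ tail P n ≤ (g : ℝ)⁻¹), tail P n ≤
        ∑ n ∈ Ioc 0 (2 * x), tail P n :=
      Finset.sum_le_sum_of_subset_of_nonneg
        ((Finset.filter_subset _ _).trans (Finset.filter_subset _ _)) fun n _ _ => tail_nonneg P n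
    have h3 := sum_tail_le P (2 * x) (by positivity)
    have h4 := h1.trans (h2.trans h3)
    rw [← div_eq_mul_inv, div_le_iff₀ hg0] at h4
    refine h4.trans (le_of_eq ?_)
    rw [hF, hP]
    push_cast
    field_simp
  -- good `n`
  have hgood : ((S.filter (fun n => tail P n ≤ (g : ℝ)⁻¹)).card : ℝ) ≤ 4 * F := by
    set G := S.filter (fun n => tail P n ≤ (g : ℝ)⁻¹) with hG
    have h1 : G.card = ∑ r ∈ range Q, (G.filter (fun n => n % Q = r)).card :=
      Finset.card_eq_sum_card_fiberwise fun n _ => by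
        simpa using Nat.mod_lt n hQ0
    have h2 : ∀ r ∈ range Q, ((G.filter (fun n => n % Q = r)).card : ℝ) ≤ 3 * F / Q + 1 := by
      intro r _
      have hs0 := small_nonneg P r
      refine card_le_of_class _ Q r hQ0 (x / (1 + small P r)) (3 * F) (by positivity)
        (fun k hk => (mem_filter.1 hk).2) ?_
      intro k hk
      simp only [hG, hS, mem_filter, mem_Ioc] at hk
      obtain ⟨⟨⟨⟨hk0, hk1⟩, hk2, hk3⟩, hk4⟩, hk5⟩ := hk
      have e : small P r = small P k := by rw [← hk5, hQ, small_mod]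
      rw [e] at hs0 ⊢
      have u1 := totient_upper P k hk0.ne'
      have u2 := totient_lower P k hk0.ne'
      have hk1' : (k : ℝ) ≤ 2 * x := by exact_mod_cast hk1
      have u3 : (k : ℝ) * tail P k ≤ 2 * F := by
        calc (k : ℝ) * tail P k ≤ (2 * x) * (g : ℝ)⁻¹ :=
              mul_le_mul hk1' hk4 (tail_nonneg P k) (by positivity)
          _ = 2 * F := by rw [hF]; ring
      have hpos : 0 < 1 + small P k := by linarith
      constructor
      · rw [div_lt_iff₀ hpos]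
        linarith
      · rw [← sub_lt_iff_lt_add, lt_div_iff₀ hpos]
        nlinarith
    have hQ' : (0 : ℝ) < Q := by exact_mod_cast hQ0
    calc (G.card : ℝ) = ∑ r ∈ range Q, ((G.filter (fun n => n % Q = r)).card : ℝ) := by
          rw [h1]; push_cast; rfl
      _ ≤ ∑ r ∈ range Q, (3 * F / Q + 1) := Finset.sum_le_sum h2
      _ = 3 * F + Q := by
          rw [Finset.sum_const, card_range, nsmul_eq_mul]
          field_simp
      _ ≤ 4 * F := by linarith
  have h5 : (S.card : ℝ) = ((S.filter (fun n => tail P n ≤ (g : ℝ)⁻¹)).card : ℝ) +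
      ((S.filter (fun n => ¬ tail P n ≤ (g : ℝ)⁻¹)).card : ℝ) := by
    rw [← hsplit]; push_cast; rfl
  linarith

theorem prod_odd (T : Finset ℕ) (hT : ∀ t ∈ T, Odd t ∧ 3 ≤ t) :
    1 ≤ (2 * (T.card : ℝ) + 1) * (∏ t ∈ T, (1 - (t : ℝ)⁻¹)) ^ 2 := by
  induction T using Finset.induction_on_max with
  | empty => simp
  | insert a T ha ih =>
    have haT : a ∉ T := fun h => lt_irrefl _ (ha a h)
    have ih' := ih fun t ht => hT t (mem_insert_of_mem ht)
    obtain ⟨⟨b, hb⟩, ha3⟩ := hT a (mem_insert_self _ _)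
    have hsub : T ⊆ (Ico 1 b).image (fun i => 2 * i + 1) := by
      intro t ht
      obtain ⟨⟨c, hc⟩, ht3⟩ := hT t (mem_insert_of_mem ht)
      have := ha t ht
      exact mem_image.2 ⟨c, mem_Ico.2 ⟨by omega, by omega⟩, hc.symm⟩
    have hcard : T.card ≤ b - 1 := by
      refine (card_le_card hsub).trans (card_image_le.trans ?_)
      rw [Nat.card_Ico]
    have hk : 2 * T.card + 3 ≤ a := by omega
    have hk' : 2 * (T.card : ℝ) + 3 ≤ a := by exact_mod_cast hk
    rw [card_insert_of_notMem haT, prod_insert haT]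
    push_cast
    set k : ℝ := (T.card : ℝ) with hkdef
    have hk0 : 0 ≤ k := Nat.cast_nonneg _
    set W : ℝ := (∏ t ∈ T, (1 - (t : ℝ)⁻¹)) ^ 2 with hW
    have hW0 : 0 ≤ W := sq_nonneg _
    have h1 : (a : ℝ)⁻¹ ≤ (2 * k + 3)⁻¹ := inv_anti₀ (by positivity) hk'
    have h2 : (2 * k + 2) / (2 * k + 3) ≤ 1 - (a : ℝ)⁻¹ := by
      have : (2 * k + 2) / (2 * k + 3) = 1 - (2 * k + 3)⁻¹ := by field_simp; ring
      linarith
    have h3 : ((2 * k + 2) / (2 * k + 3)) ^ 2 ≤ (1 - (a : ℝ)⁻¹) ^ 2 :=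
      pow_le_pow_left₀ (by positivity) h2 2
    have h4 : 2 * k + 1 ≤ (2 * (k + 1) + 1) * ((2 * k + 2) / (2 * k + 3)) ^ 2 := by
      have : (2 * (k + 1) + 1) * ((2 * k + 2) / (2 * k + 3)) ^ 2 =
          (2 * k + 2) ^ 2 / (2 * k + 3) := by field_simp; ring
      rw [this, le_div_iff₀ (by positivity)]
      nlinarith
    have h5 : 2 * k + 1 ≤ (2 * (k + 1) + 1) * (1 - (a : ℝ)⁻¹) ^ 2 :=
      h4.trans (mul_le_mul_of_nonneg_left h3 (by positivity))
    calc (1 : ℝ) ≤ (2 * k + 1) * W := ih'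
      _ ≤ (2 * (k + 1) + 1) * (1 - (a : ℝ)⁻¹) ^ 2 * W := mul_le_mul_of_nonneg_right h5 hW0
      _ = _ := by rw [mul_pow, hW]; ring

theorem sq_le_totient (n : ℕ) :
    (n : ℝ) ^ 2 ≤ 4 * (2 * (n.primeFactors.card : ℝ) + 1) * (Nat.totient n : ℝ) ^ 2 := by
  have h1 := prod_odd (n.primeFactors.erase 2) (by
    intro t ht
    rw [mem_erase] at ht
    have hp := Nat.prime_of_mem_primeFactors ht.2
    have := hp.two_le
    exact ⟨hp.odd_of_ne_two ht.1, by omega⟩)
  set W := ∏ t ∈ n.primeFactors.erase 2, (1 - (t : ℝ)⁻¹) with hW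
  have hW0 : 0 ≤ W := Finset.prod_nonneg fun p _ => sub_nonneg.2 (inv_le_one_nat p)
  have h2 : W / 2 ≤ ∏ t ∈ n.primeFactors, (1 - (t : ℝ)⁻¹) := by
    by_cases h : 2 ∈ n.primeFactors
    · rw [← Finset.mul_prod_erase _ _ h, ← hW]
      norm_num
      linarith
    · rw [hW, Finset.erase_eq_of_notMem h] at *
      linarith
  have h3 : ((n.primeFactors.erase 2).card : ℝ) ≤ n.primeFactors.card := by
    exact_mod_cast Finset.card_erase_le
  have h4 : (W / 2) ^ 2 ≤ (∏ t ∈ n.primeFactors, (1 - (t : ℝ)⁻¹)) ^ 2 :=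
    pow_le_pow_left₀ (by positivity) h2 2
  rw [totient_real, mul_pow]
  have h5 : (1 : ℝ) ≤ (2 * (n.primeFactors.card : ℝ) + 1) * W ^ 2 :=
    h1.trans (mul_le_mul_of_nonneg_right (by linarith) (sq_nonneg _))
  have h6 : (1 : ℝ) ≤ 4 * (2 * (n.primeFactors.card : ℝ) + 1) *
      (∏ t ∈ n.primeFactors, (1 - (t : ℝ)⁻¹)) ^ 2 := by
    have := mul_le_mul_of_nonneg_left h4
      (by positivity : (0 : ℝ) ≤ 4 * (2 * (n.primeFactors.card : ℝ) + 1))
    nlinarith
  nlinarith [sq_nonneg (n : ℝ)]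

theorem card_primeFactors_le (n m L : ℕ) (hn : n ≠ 0) (hL : n < 8 ^ L) :
    m * n.primeFactors.card ≤ m * 8 ^ m + L := by
  have hsplit := Finset.card_filter_add_card_filter_not (s := n.primeFactors)
    (fun p => p < 8 ^ m)
  have h1 : (n.primeFactors.filter (fun p => p < 8 ^ m)).card ≤ 8 ^ m := by
    refine (card_le_card (t := range (8 ^ m)) ?_).trans (by simp)
    intro p hp
    exact mem_range.2 (mem_filter.1 hp).2
  set B := n.primeFactors.filter (fun p => ¬ p < 8 ^ m) with hB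
  have h2 : (8 ^ m) ^ B.card ≤ ∏ p ∈ B, p :=
    Finset.pow_card_le_prod _ _ _ fun p hp => not_lt.1 (mem_filter.1 hp).2
  have h3 : ∏ p ∈ B, p ≤ n := by
    refine Nat.le_of_dvd (Nat.pos_of_ne_zero hn) ?_
    exact (Finset.prod_dvd_prod_of_subset _ _ _ (Finset.filter_subset _ _)).trans
      (Nat.prod_primeFactors_dvd n)
  have h4 : 8 ^ (m * B.card) < 8 ^ L := by
    rw [pow_mul]
    omega
  have h5 : m * B.card < L := (Nat.pow_lt_pow_iff_right (by norm_num)).1 h4
  rw [← hsplit, mul_add]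
  have := Nat.mul_le_mul_left m h1
  omega

/-- the slowly growing function -/
def gg (x : ℕ) : ℕ := Nat.sqrt (Nat.log 8 x)

theorem gg_tendsto : Tendsto gg atTop atTop := by
  rw [tendsto_atTop_atTop]
  intro b
  refine ⟨8 ^ (b ^ 2), fun x hx => ?_⟩
  unfold gg
  rw [Nat.le_sqrt']
  exact Nat.le_log_of_pow_le (by norm_num) hx

theorem gg_le (x : ℕ) (hx : x ≠ 0) : gg x * 4 ^ (gg x ^ 2) ≤ x := by
  have h1 : gg x ^ 2 ≤ Nat.log 8 x := Nat.sqrt_le' _
  have h2 : 8 ^ (gg x ^ 2) ≤ x :=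
    (Nat.pow_le_pow_right (by norm_num) h1).trans (Nat.pow_log_le_self 8 hx)
  have h3 : gg x ≤ 2 ^ (gg x ^ 2) :=
    (Nat.lt_two_pow_self.le).trans
      (Nat.pow_le_pow_right (by norm_num) (Nat.le_self_pow (by norm_num) _))
  calc gg x * 4 ^ (gg x ^ 2) ≤ 2 ^ (gg x ^ 2) * 4 ^ (gg x ^ 2) := Nat.mul_le_mul_right _ h3
    _ = 8 ^ (gg x ^ 2) := by rw [← mul_pow]; norm_num
    _ ≤ x := h2

theorem lt_gg (x : ℕ) : x < 8 ^ ((gg x + 1) ^ 2) := by
  have h1 : Nat.log 8 x < (gg x + 1) ^ 2 := Nat.lt_succ_sqrt' _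
  exact (Nat.lt_pow_succ_log_self (by norm_num) x).trans_le
    (Nat.pow_le_pow_right (by norm_num) h1)

theorem F_tendsto : Tendsto (fun x : ℕ => (x : ℝ) / gg x) atTop atTop := by
  refine tendsto_atTop_mono' atTop ?_ (tendsto_natCast_atTop_atTop.comp gg_tendsto)
  filter_upwards [gg_tendsto.eventually_ge_atTop 1, eventually_ge_atTop 1] with x h1 h2
  have h0 : (0 : ℝ) < gg x := by exact_mod_cast h1
  simp only [Function.comp]
  rw [le_div_iff₀ h0]
  have h3 := gg_le x (by omega)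
  have h4 : gg x ≤ 4 ^ (gg x ^ 2) :=
    (Nat.lt_pow_self (by norm_num)).le.trans
      (Nat.pow_le_pow_right (by norm_num) (Nat.le_self_pow (by norm_num) _))
  have h5 : gg x * gg x ≤ x := (Nat.mul_le_mul_left _ h4).trans h3
  exact_mod_cast h5

theorem ratio_tendsto :
    Tendsto (fun n : ℕ => (n : ℝ) / gg n / (Nat.totient n : ℝ)) atTop (𝓝 0) := by
  rw [Metric.tendsto_nhds]
  intro ε hε
  obtain ⟨m, hm⟩ := exists_nat_gt (64 / ε ^ 2)
  have hm0 : (0 : ℝ) < m := lt_trans (by positivity) hm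
  obtain ⟨G, hG⟩ := exists_nat_gt (8 * (2 * (8 : ℝ) ^ m + 1) / ε ^ 2)
  have hG0 : (0 : ℝ) < G := lt_trans (by positivity) hG
  filter_upwards [gg_tendsto.eventually_ge_atTop G, gg_tendsto.eventually_ge_atTop 1,
    eventually_ge_atTop 1] with n h1 h2 h3
  have hg1 : (1 : ℝ) ≤ gg n := by exact_mod_cast h2
  have hgG : (G : ℝ) ≤ gg n := by exact_mod_cast h1
  have hφ : (0 : ℝ) < Nat.totient n := by exact_mod_cast Nat.totient_pos.2 (by omega)
  rw [Real.dist_eq, sub_zero, abs_of_nonneg (by positivity)]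
  set g : ℝ := (gg n : ℝ) with hg
  set k : ℝ := (n.primeFactors.card : ℝ) with hk
  have a1 := sq_le_totient n
  have a2 : (m : ℝ) * k ≤ m * 8 ^ m + (g + 1) ^ 2 := by
    have := card_primeFactors_le n m _ (by omega) (lt_gg n)
    rw [hk, hg]
    exact_mod_cast this
  have a3 : k ≤ 8 ^ m + 4 * g ^ 2 / m := by
    have : k - 8 ^ m ≤ 4 * g ^ 2 / m := by
      rw [le_div_iff₀ hm0]
      nlinarith
    linarith
  have a4 : 32 * g ^ 2 / m < ε ^ 2 / 2 * g ^ 2 := by
    rw [div_lt_iff₀ (by positivity)] at hm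
    rw [div_lt_iff₀ hm0]
    have : 0 < g ^ 2 := by positivity
    nlinarith
  have a5 : 4 * (2 * (8 : ℝ) ^ m + 1) < ε ^ 2 / 2 * g ^ 2 := by
    rw [div_lt_iff₀ (by positivity)] at hG
    have b1 : (G : ℝ) ≤ g ^ 2 := by nlinarith
    have b2 : (G : ℝ) * ε ^ 2 ≤ g ^ 2 * ε ^ 2 := mul_le_mul_of_nonneg_right b1 (sq_nonneg _)
    nlinarith
  have a6 : 4 * (2 * k + 1) < ε ^ 2 * g ^ 2 := by
    have : 32 * g ^ 2 / m = 8 * (4 * g ^ 2 / m) := by ring
    nlinarith
  refine lt_of_pow_lt_pow_left₀ 2 hε.le ?_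
  rw [div_div, div_pow, div_lt_iff₀ (by positivity), mul_pow]
  have a7 : 0 < (Nat.totient n : ℝ) ^ 2 := by positivity
  calc (n : ℝ) ^ 2 ≤ 4 * (2 * k + 1) * (Nat.totient n : ℝ) ^ 2 := a1
    _ < ε ^ 2 * g ^ 2 * (Nat.totient n : ℝ) ^ 2 := mul_lt_mul_of_pos_right a6 a7
    _ = _ := by ring

theorem main :
    ∃ F : ℕ → ℝ, Tendsto F atTop atTop ∧
      Tendsto (fun n : ℕ => F n / (Nat.totient n : ℝ)) atTop (𝓝 0) ∧
      ∀ᶠ x : ℕ in atTop,
          ((Set.ncard {n : ℕ | (x : ℝ) < (n : ℝ) + (Nat.totient n : ℝ) ∧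
              (n : ℝ) + (Nat.totient n : ℝ) < (x : ℝ) + F x} : ℕ) : ℝ) ≤ 6 * F x := by
  refine ⟨fun x => (x : ℝ) / gg x, F_tendsto, ratio_tendsto, ?_⟩
  filter_upwards [gg_tendsto.eventually_ge_atTop 1, eventually_ge_atTop 1] with x h1 h2
  exact count_le (gg x) x h1 (gg_le x (by omega))

end Pool.Agent.H296Z.Totient
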